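import Pool.Agent.Helper41.GN.Ex

set_option autoImplicit false

/-!
# All antiderivatives (helper41)
-/

namespace Pool.Agent.Helper41.GN

open Complex Filter Topology MeasureTheory Metric Polynomial
open scoped ComplexConjugate
open Pool.Agent.N963.GN

/-- Real entire functions of order at most `3/2` with finitely many zeros. -/
lemma fin_zeros {X : ℂ → ℂ} (hX : Differentiable ℂ X) (hs : Sym X) (hg : Gro X)
    (hfin : ({w | X w = 0} : Set ℂ).Finite) :
    ∃ (P : ℝ[X]) (b c : ℂ), P ≠ 0 ∧ c ≠ 0 ∧ ∀ z, X z = aeval z P * (c * cexp (b * z)) := by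
  obtain ⟨ρ, hρ⟩ : ∃ ρ : ℝ, ∀ w ∈ {w | X w = 0}, ‖w‖ ≤ ρ := by
    obtain ⟨ρ, hρ⟩ := (hfin.image (fun w => ‖w‖)).bddAbove
    exact ⟨ρ, fun w hw => hρ (Set.mem_image_of_mem _ hw)⟩
  obtain ⟨P, g, hP, hRR, -, hgg, hfac, hz⟩ := h1 X hX hs hg (hfin.subset fun w hw => hw.1) ρ
  have hnz : ∀ z, g z ≠ 0 := by
    intro z hz0
    have h2 : X z = 0 := by rw [hfac z, hz0, mul_zero]
    exact hz z (hρ z h2) hz0
  obtain ⟨b, c, hbc⟩ := Pool.Agent.N400.GN.h3 g hRR.1 hgg hnz
  refine ⟨P, b, c, hP, ?_, fun z => by rw [hfac z, hbc z]⟩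
  rintro rfl
  exact hnz 0 (by rw [hbc, zero_mul])

lemma zeros_inf {X : ℂ → ℂ} (hX : Differentiable ℂ X) (hs : Sym X) (hg : Gro X) (hL : LD X) :
    ({w | X w = 0} : Set ℂ).Infinite := by
  intro hfin
  obtain ⟨P, b, c, hP, hc, hXe⟩ := fin_zeros hX hs hg hfin
  obtain ⟨c0, h0, r0, C, x0, hc0, hr0, hrh, hC, hx0, hld⟩ := hL
  obtain ⟨R1, hR1, hRP⟩ := Pool.Agent.N282.GN.logDeriv_poly P hP 1 one_pos
  obtain ⟨x, hx1, hx2, hx3⟩ : ∃ x : ℝ, x0 ≤ x ∧ R1 ≤ x ∧ C + 1 + ‖b‖ < c0 * Real.log x := by
    have h5 : Tendsto (fun x : ℝ => c0 * Real.log x) atTop atTop :=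
      Real.tendsto_log_atTop.const_mul_atTop hc0
    obtain ⟨x, hx⟩ := (((eventually_ge_atTop x0).and (eventually_ge_atTop R1)).and
      (h5.eventually_gt_atTop (C + 1 + ‖b‖))).exists
    exact ⟨x, hx.1.1, hx.1.2, hx.2⟩
  have habs : |x| = x := abs_of_pos (by linarith)
  obtain ⟨hne, hb⟩ := hld x (by rw [habs]; exact hx1) ((x : ℂ) + h0 * I) (by simp [hr0.le])
  set z : ℂ := (x : ℂ) + h0 * I with hz
  have hzx : R1 ≤ ‖z‖ := by
    refine hx2.trans ?_
    have h6 : x = z.re := by simp [hz]
    rw [h6]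
    exact Complex.re_le_norm z
  obtain ⟨hPz, hPb⟩ := hRP z hzx
  have hlog : logDeriv X z = logDeriv (fun w : ℂ => aeval w P) z + b := by
    have e : X = fun w => aeval w P * (c * cexp (b * w)) := funext hXe
    have hd : ∀ w : ℂ, HasDerivAt (fun w : ℂ => c * cexp (b * w)) (c * (cexp (b * w) * b)) w := by
      intro w
      have h7 := (((hasDerivAt_id w).const_mul b).cexp).const_mul c
      simp only [id_eq, mul_one] at h7
      exact h7
    have e2 := logDeriv_mul (f := fun w : ℂ => aeval w P) (g := fun w : ℂ => c * cexp (b * w)) z hPz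
      (mul_ne_zero hc (Complex.exp_ne_zero _)) (Polynomial.differentiable_aeval P z) (hd z).differentiableAt
    rw [e, e2]
    congr 1
    rw [logDeriv_apply, (hd z).deriv]
    have := Complex.exp_ne_zero (b * z)
    field_simp
  rw [hlog, habs] at hb
  have h8 : c0 * Real.log x = ‖I * ((c0 * Real.log x : ℝ) : ℂ)‖ := by
    rw [norm_mul, Complex.norm_I, one_mul, Complex.norm_real, Real.norm_eq_abs, abs_of_nonneg]
    exact mul_nonneg hc0.le (Real.log_nonneg (by linarith))
  have h9 : ‖I * ((c0 * Real.log x : ℝ) : ℂ)‖ ≤ C + (1 + ‖b‖) := by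
    have e : I * ((c0 * Real.log x : ℝ) : ℂ) = (logDeriv (fun w : ℂ => aeval w P) z + b +
        I * ((c0 * Real.log x : ℝ) : ℂ)) - (logDeriv (fun w : ℂ => aeval w P) z + b) := by ring
    rw [e]
    refine (norm_sub_le _ _).trans (add_le_add hb ((norm_add_le _ _).trans ?_))
    gcongr
  linarith

/-- **All antiderivatives** have infinitely many non-real zeros. -/
theorem anti {K : ℂ → ℂ} {α : ℝ} (hK : Kern K α) (hM : MS K α)
    (hL : LD (Lt (fun u : ℝ => K (u : ℂ)))) {H : ℂ → ℂ} (hH : Differentiable ℂ H)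
    (he : ∀ z : ℂ, deriv H z = Lt (fun u : ℝ => K (u : ℂ)) z) : (NRZ H).Infinite := by
  set X : ℂ → ℂ := Lt (fun u : ℝ => K (u : ℂ)) with hX
  have hdX : Differentiable ℂ X := diff_Lt hK.wt
  have hsX : Sym X := sym_Lt (fun u => hK.herm u)
  have hgX : Gro X := gro_Lt hK hK.wt (fun u => le_rfl)
  have hgH : Gro H := gro_ode (a := 0) hH (X := X) (fun z => by rw [he z]; simp) hgX
  -- the imaginary part
  set γ : ℝ := (H 0).im with hγ
  have hcj : ∀ z, HasDerivAt (conj ∘ H ∘ conj) (X z) z := by
    intro z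
    have h2 := (hH (conj z)).hasDerivAt.conj_conj
    rw [Complex.conj_conj, he, hsX, Complex.conj_conj] at h2
    exact h2
  have hHs : ∀ z, H z - conj (H (conj z)) = 2 * γ * I := by
    intro z
    have h2 := is_const_of_deriv_eq_zero (f := fun z => H z - (conj ∘ H ∘ conj) z)
      (fun z => ((hH z).hasDerivAt.sub (hcj z)).differentiableAt)
      (fun z => by
        have h3 := ((hH z).hasDerivAt.sub (hcj z)).deriv
        rw [he, sub_self] at h3
        exact h3) z 0
    simp only [Function.comp_apply, map_zero] at h2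
    rw [h2, Complex.sub_conj]
    push_cast
    ring
  by_cases hγ0 : γ = 0
  · have hs : Sym H := by
      intro z
      have h2 := hHs (conj z)
      rw [hγ0, Complex.conj_conj] at h2
      simp only [ofReal_zero, mul_zero, zero_mul] at h2
      exact sub_eq_zero.1 h2
    obtain ⟨C, hC, hb⟩ := hgH
    refine op_main hK hM hL lpc_id ⟨0, rfl⟩ hH hs ⟨C, 3 / 2, hC, by norm_num, by norm_num, hb⟩ fun z => ?_
    rw [← hX, ← he z]
    exact trm_id z
  · intro hfin
    -- no real zeros
    have hr : ∀ z : ℂ, z.im = 0 → H z ≠ 0 := by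
      intro z hz h0
      have h2 := hHs z
      rw [Complex.conj_eq_iff_im.2 hz, h0, map_zero, sub_zero] at h2
      have h3 : (γ : ℂ) = 0 := by
        have hI := Complex.I_ne_zero
        have h4 : (2 : ℂ) * γ * I = 0 := h2.symm
        simpa using h4
      exact hγ0 (by exact_mod_cast h3)
    have hfz : ({w | H w = 0} : Set ℂ).Finite := by
      refine hfin.subset fun w hw => ⟨hw, fun h0 => hr w h0 hw⟩
    -- the product
    set Ht : ℂ → ℂ := conj ∘ H ∘ conj with hHt
    have hdHt : Differentiable ℂ Ht := fun z => (hcj z).differentiableAt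
    have hP : Differentiable ℂ (fun z => H z * Ht z) := hH.mul hdHt
    have hPs : Sym (fun z => H z * Ht z) := by
      intro z
      simp only [hHt, Function.comp_apply, Complex.conj_conj, map_mul]
      ring
    have hPg : Gro (fun z => H z * Ht z) := by
      obtain ⟨C, hC, hb⟩ := hgH
      refine ⟨2 * C, by positivity, fun z => ?_⟩
      rw [norm_mul]
      have h2 := hb z
      have h3 := hb (conj z)
      rw [Complex.norm_conj] at h3
      have h4 : ‖Ht z‖ ≤ Real.exp (C * (1 + ‖z‖) ^ (3 / 2 : ℝ)) := by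
        rw [hHt]
        simp only [Function.comp_apply]
        rw [Complex.norm_conj]
        exact h3
      calc ‖H z‖ * ‖Ht z‖ ≤ Real.exp (C * (1 + ‖z‖) ^ (3 / 2 : ℝ)) * Real.exp (C * (1 + ‖z‖) ^ (3 / 2 : ℝ)) :=
            mul_le_mul h2 h4 (norm_nonneg _) (Real.exp_pos _).le
        _ = _ := by
          rw [← Real.exp_add]
          congr 1
          ring
    have hPz : ({w | H w * Ht w = 0} : Set ℂ).Finite := by
      refine (hfz.union (hfz.image conj)).subset fun w hw => ?_
      rcases mul_eq_zero.1 hw with h2 | h2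
      · exact Or.inl h2
      · right
        refine ⟨conj w, ?_, Complex.conj_conj w⟩
        have h3 : conj (H (conj w)) = 0 := h2
        simpa using h3
    obtain ⟨P, b, c, hP0, hc, hPe⟩ := fin_zeros hP hPs hPg hPz
    -- differentiate
    have hder : ∀ z, (H z + Ht z) * X z =
        (aeval z (derivative P) + b * aeval z P) * (c * cexp (b * z)) := by
      intro z
      have h2 := ((hH z).hasDerivAt.mul (hcj z)).deriv
      have h3 : HasDerivAt (fun z => aeval z P * (c * cexp (b * z)))
          (aeval z (derivative P) * (c * cexp (b * z)) + aeval z P * (c * (cexp (b * z) * b))) z := by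
        have h4 := (((hasDerivAt_id z).const_mul b).cexp).const_mul c
        simp only [id_eq, mul_one] at h4
        exact (Polynomial.hasDerivAt_aeval P z).mul h4
      have h5 : (fun z => H z * Ht z) = fun z => aeval z P * (c * cexp (b * z)) := funext hPe
      have h6 : deriv (fun z => H z * Ht z) z = deriv H z * Ht z + H z * X z := h2
      rw [h5, h3.deriv, he] at h6
      linear_combination -h6
    have hsum : ∀ z, H z + Ht z = 2 * (H z - γ * I) := by
      intro z
      have h2 := hHs z
      have h3 : Ht z = conj (H (conj z)) := rfl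
      rw [h3]
      linear_combination -h2
    apply zeros_inf hdX hsX hgX hL
    set q : ℂ[X] := (derivative P).map (algebraMap ℝ ℂ) + Polynomial.C b * P.map (algebraMap ℝ ℂ) with hq
    have hqe : ∀ z, q.eval z = aeval z (derivative P) + b * aeval z P := by
      intro z
      rw [hq, eval_add, eval_mul, eval_C, aeval_def, eval₂_eq_eval_map, aeval_def, eval₂_eq_eval_map]
    have hq0 : q ≠ 0 := by
      intro h0
      have h2 : ∀ z, (H z - γ * I) * X z = 0 := by
        intro z
        have h3 := hder z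
        rw [← hqe, h0, eval_zero, zero_mul, hsum] at h3
        have h4 : (2 : ℂ) * ((H z - γ * I) * X z) = 0 := by
          rw [← h3]
          ring
        simpa using h4
      obtain ⟨z0, hz0⟩ := hL.ne
      have h3 : ∀ᶠ z in 𝓝 z0, H z - γ * I = 0 := by
        filter_upwards [hdX.continuous.continuousAt.eventually_ne hz0] with z hz
        exact (mul_eq_zero.1 (h2 z)).resolve_right hz
      have h4 : deriv H z0 = 0 := by
        have h5 : H =ᶠ[𝓝 z0] fun _ => γ * I := h3.mono fun z hz => sub_eq_zero.1 hz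
        rw [h5.deriv_eq, deriv_const]
      rw [he] at h4
      exact hz0 h4
    have h2 : {w | X w = 0} ⊆ (q.roots.toFinset : Set ℂ) := by
      intro w hw
      have h3 := hder w
      rw [show X w = 0 from hw, mul_zero, ← hqe] at h3
      rw [Finset.mem_coe, Multiset.mem_toFinset, mem_roots hq0, IsRoot.def]
      rcases mul_eq_zero.1 h3.symm with h4 | h4
      · exact h4
      · exact absurd h4 (mul_ne_zero hc (Complex.exp_ne_zero _))
    exact (Finset.finite_toSet _).subset h2

end Pool.Agent.Helper41.GN
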