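import Pool.Agent.Helper41.GN.Op
import Pool.Agent.N868.GN.M0
import Pool.Agent.N498.GN.M1
import Pool.Agent.N455.GN.M2a
import Pool.Agent.N558.GN.M2b
import Pool.Agent.N157.GN.M2c
import Pool.Agent.N348.GN.M3
import Pool.Agent.N722.GN.Q

set_option autoImplicit false

/-!
# Newforms of weight two: the data of the abstract theorem, averages, shifts (helper41)
-/

namespace Pool.Agent.Helper41.GN

open UpperHalfPlane hiding I
open Complex Filter Topology MatrixGroups CongruenceSubgroup MeasureTheory Metric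
open scoped ComplexConjugate
open Pool.Agent.N963.GN

/-! ### The mean square property -/

theorem ms_of {N k : ℕ} {F : ℂ → ℂ} {b : ℕ → ℂ} {κ : ℂ} (h : MF N k F b κ) :
    MS (Km N k F κ) (Real.pi / 2) := by
  obtain ⟨C, δ0, hC, hδ0, hδ1, hu⟩ := Pool.Agent.N455.GN.m2a N k F b κ h
  obtain ⟨c, δ2, hc, hδ2, hδ3, hl⟩ := Pool.Agent.N558.GN.m2b Pool.Agent.N157.GN.m2c N k F b κ h
  have hpi := Real.pi_gt_three
  refine ⟨C, c, k, min δ0 δ2, hC, hc, by exact_mod_cast h.hk, lt_min hδ0 hδ2,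
    (min_le_left _ _).trans_lt (by linarith), (min_le_left _ _).trans_lt hδ1, fun δ h1 h2 σ hσ => ?_⟩
  obtain ⟨u1, u2⟩ := hu δ h1 (h2.trans (min_le_left _ _)) σ hσ
  exact ⟨u1, u2, hl δ h1 (h2.trans (min_le_right _ _)) σ hσ⟩

/-! ### From `Γ₀(N)` to `Γ₁(N)` -/

variable {N : ℕ} [NeZero N]

/-- A form for `Γ₀(N)`, regarded as a form for `Γ₁(N)`. -/
noncomputable def toG1 (f : CuspForm (Gamma0 N : Subgroup (GL (Fin 2) ℝ)) 2) :
    CuspForm (Gamma1 N : Subgroup (GL (Fin 2) ℝ)) ((2 : ℕ) : ℤ) where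
  toFun := f
  slash_action_eq' γ hγ := f.slash_action_eq' γ (Subgroup.map_mono (Gamma1_in_Gamma0 N) hγ)
  holo' := f.holo'
  zero_at_cusps' hc := f.zero_at_cusps' (hc.mono (Subgroup.map_mono (Gamma1_in_Gamma0 N)))

omit [NeZero N] in
lemma toG1_apply (f : CuspForm (Gamma0 N : Subgroup (GL (Fin 2) ℝ)) 2) (τ : ℍ) : toG1 f τ = f τ := rfl

omit [NeZero N] in
lemma toG1_q (f : CuspForm (Gamma0 N : Subgroup (GL (Fin 2) ℝ)) 2) :
    qExpansion 1 (toG1 f) = qExpansion 1 f := rfl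

lemma real_form {f : CuspForm (Gamma0 N : Subgroup (GL (Fin 2) ℝ)) 2}
    (hr : ∀ n, ((qExpansion 1 f).coeff n).im = 0) {τ τ' : ℍ} (h : (τ' : ℂ) = -conj (τ : ℂ)) :
    conj (f τ') = f τ := by
  have h1 := Pool.Agent.N868.GN.sum1 (toG1 f) (τ : ℂ) τ.im_pos
  have h2 := Pool.Agent.N868.GN.sum1 (toG1 f) (τ' : ℂ) τ'.im_pos
  rw [toG1_q, toG1_apply, ofComplex_apply] at h1 h2
  have h3 := (Complex.hasSum_conj' (f := fun n : ℕ => (qExpansion 1 f).coeff (n + 1) *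
      cexp (2 * Real.pi * I * ((n + 1 : ℕ) : ℂ) * (τ' : ℂ)))).2 h2
  refine h3.unique ?_
  convert h1 using 2 with n
  rw [map_mul, Complex.conj_eq_iff_im.2 (hr (n + 1)), ← Complex.exp_conj, h]
  congr 2
  simp only [map_mul, map_neg, Complex.conj_conj, Complex.conj_I, Complex.conj_ofReal, map_ofNat,
    Complex.conj_natCast]
  ring

/-- The data. -/
theorem data (f : CuspForm (Gamma0 N : Subgroup (GL (Fin 2) ℝ)) 2)
    (hr : ∀ n, ((qExpansion 1 f).coeff n).im = 0) (h1 : (qExpansion 1 f).coeff 1 = 1)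
    (hfr : ∃ w : ℝ, (w = 1 ∨ w = -1) ∧ ∀ τ τ' : ℍ, (τ' : ℂ) * ((N : ℂ) * (τ : ℂ)) = -1 →
      f τ' = -(w : ℂ) * (N : ℂ) * (τ : ℂ) ^ 2 * f τ) :
    ∃ κ : ℂ, MF N 2 (fun w => f (ofComplex w)) (fun n => (qExpansion 1 f).coeff n) κ := by
  obtain ⟨w, hw, hF⟩ := hfr
  have hN : (N : ℂ) ≠ 0 := by exact_mod_cast NeZero.ne N
  have hw0 : (w : ℂ) ≠ 0 := by
    rcases hw with h | h <;> rw [h] <;> norm_num
  have h := Pool.Agent.N868.GN.t_M0 N 2 (by norm_num) (toG1 f) (by rw [toG1_q, h1]; exact one_ne_zero)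
    (-(w : ℂ) * (N : ℂ)) (mul_ne_zero (neg_ne_zero.2 hw0) hN) (fun τ τ' τ'' h1 h2 => by
      rw [toG1_apply, toG1_apply, hF τ τ' h1, real_form hr h2])
  exact h

/-! ### Averages -/

lemma avg {K : ℂ → ℂ} {α : ℝ} (hK : Kern K α) {lam β : ℝ} {r : ℕ → ℝ} (μ : Measure ℝ) [IsFiniteMeasure μ]
    (hμ : ∀ u : ℝ, ∫ t, cexp (-(I * u * t)) ∂μ = 1 / Sf lam β r u) (z : ℂ) :
    Lt (fun u : ℝ => K (u : ℂ) / Sf lam β r u) z = ∫ t, Lt (fun u : ℝ => K (u : ℂ)) (z - (t : ℝ)) ∂μ := by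
  unfold Lt
  have hint : Integrable (fun p : ℝ × ℝ => K (p.2 : ℂ) * cexp (I * (z - (p.1 : ℝ)) * (p.2 : ℝ)))
      (μ.prod volume) := by
    have h1 : Integrable (fun p : ℝ × ℝ => K (p.2 : ℂ) * cexp (I * z * (p.2 : ℝ))) (μ.prod volume) :=
      (hK.wt.integrand z).comp_snd μ
    have h2 := h1.bdd_mul (c := 1) (f := fun p : ℝ × ℝ => cexp (-(I * (p.1 : ℝ) * (p.2 : ℝ)))) (by
      apply Continuous.aestronglyMeasurable
      fun_prop) (Eventually.of_forall fun p => by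
        rw [show -(I * ((p.1 : ℝ) : ℂ) * ((p.2 : ℝ) : ℂ)) = ((-(p.1 * p.2) : ℝ) : ℂ) * I by push_cast; ring]
        rw [Complex.norm_exp_ofReal_mul_I])
    refine h2.congr (Eventually.of_forall fun p => ?_)
    simp only
    rw [mul_left_comm, ← Complex.exp_add]
    congr 2
    ring
  rw [integral_integral_swap hint]
  refine integral_congr_ae (Eventually.of_forall fun u => ?_)
  simp only
  have h3 : ∀ t : ℝ, K (u : ℂ) * cexp (I * (z - (t : ℝ)) * (u : ℝ)) =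
      K (u : ℂ) * cexp (I * z * u) * cexp (-(I * u * t)) := by
    intro t
    rw [mul_assoc (K (u : ℂ)), ← Complex.exp_add]
    congr 2
    ring
  simp_rw [h3]
  rw [integral_const_mul, hμ u]
  ring

theorem gn_avg {K : ℂ → ℂ} {α : ℝ} (hK : Kern K α) (hM : MS K α)
    (hL : LD (Lt (fun u : ℝ => K (u : ℂ)))) {lam β : ℝ} {r : ℕ → ℝ} (hlam : 0 ≤ lam)
    (hr : Summable (fun k => r k ^ 2)) {k0 : ℕ} (hk0 : r k0 ≠ 0) (μ : Measure ℝ) [IsFiniteMeasure μ]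
    (hμ : ∀ u : ℝ, ∫ t, cexp (-(I * u * t)) ∂μ = 1 / Sf lam β r u) :
    (NRZ (fun z => ∫ t, Lt (fun u : ℝ => K (u : ℂ)) (z - (t : ℝ)) ∂μ)).Infinite := by
  have h := gn h1 Pool.Agent.N400.GN.h2 Pool.Agent.N400.GN.h3 (Pool.Agent.N282.GN.t5 h1)
    Pool.Agent.N868.GN.t_T6 Pool.Agent.N722.GN.q hK hM hL hlam hr hk0 (β := β)
  have e : Lt (fun u : ℝ => K (u : ℂ) / Sf lam β r u) =
      fun z => ∫ t, Lt (fun u : ℝ => K (u : ℂ)) (z - (t : ℝ)) ∂μ := funext fun z => avg hK μ hμ z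
  rwa [e] at h

/-! ### Constant multiples -/

lemma trm_smul (φ G : ℂ → ℂ) (hG : Differentiable ℂ G) (c z : ℂ) (n : ℕ) :
    trm φ (fun z => c * G z) z n = c * trm φ G z n := by
  unfold trm
  have h : iteratedDeriv n (fun z => c * G z) z = c * iteratedDeriv n G z := by
    exact iteratedDeriv_const_mul c ((hG.contDiff (n := n)).contDiffAt)
  rw [h]
  ring

/-- The operator theorem with a constant. -/
theorem op_const {K : ℂ → ℂ} {α : ℝ} (hK : Kern K α) (hM : MS K α)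
    (hL : LD (Lt (fun u : ℝ => K (u : ℂ)))) {φ : ℂ → ℂ} (hφ : LPc φ)
    (hz : ∃ s, φ s = 0) {G : ℂ → ℂ} (hG : Differentiable ℂ G) (hs : Sym G) (hgr : Gr2 G) {c : ℂ} (hc : c ≠ 0)
    (he : ∀ z : ℂ, HasSum (trm φ G z) (c * Lt (fun u : ℝ => K (u : ℂ)) z)) : (NRZ G).Infinite := by
  obtain ⟨-, -, hXs, -, -⟩ := Pool.Agent.N525.GN.t_C5 Pool.Agent.N134.GN.c2 φ hφ G hG hgr
  set X : ℂ → ℂ := Lt (fun u : ℝ => K (u : ℂ)) with hX
  have hsX : Sym X := sym_Lt (fun u => hK.herm u)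
  have hsum : (fun z => ∑' n, trm φ G z n) = fun z => c * X z := funext fun z => (he z).tsum_eq
  have hs2 : Sym (fun z => c * X z) := by rw [← hsum]; exact hXs hs
  -- `c` is real
  obtain ⟨x, hx⟩ := hL.ne
  have hcr : conj c = c := by
    have h2 := hs2 x
    simp only [map_mul, hsX x] at h2
    have h3 : conj (X x) ≠ 0 := by simpa using hx
    exact (mul_right_cancel₀ h3 h2).symm
  obtain ⟨r, rfl⟩ : ∃ r : ℝ, c = r := ⟨c.re, by
    apply Complex.ext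
    · simp
    · simpa using Complex.conj_eq_iff_im.1 hcr⟩
  have hr : (r : ℂ) ≠ 0 := hc
  have hinv : ((r⁻¹ : ℝ) : ℂ) ≠ 0 := by
    push_cast
    exact inv_ne_zero hr
  have h := op_main hK hM hL hφ hz (G := fun z => ((r⁻¹ : ℝ) : ℂ) * G z) (hG.const_mul _) (fun z => by
    simp only [map_mul, Complex.conj_ofReal, hs z]) ?_ ?_
  · convert h using 1
    ext z
    simp only [NRZ, Set.mem_ofPred_eq, mul_eq_zero, hinv, false_or]
  · obtain ⟨C, ρ, hC, h0, h2, hb⟩ := hgr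
    refine ⟨C + |Real.log (‖((r⁻¹ : ℝ) : ℂ)‖)|, ρ, by positivity, h0, h2, fun z => ?_⟩
    rw [norm_mul]
    have h1 : ‖((r⁻¹ : ℝ) : ℂ)‖ ≤ Real.exp |Real.log (‖((r⁻¹ : ℝ) : ℂ)‖)| := by
      conv_lhs => rw [← Real.exp_log (norm_pos_iff.2 hinv)]
      exact Real.exp_le_exp.2 (le_abs_self _)
    have h3 : 1 ≤ (1 + ‖z‖) ^ ρ := Real.one_le_rpow (by linarith [norm_nonneg z]) h0
    calc ‖((r⁻¹ : ℝ) : ℂ)‖ * ‖G z‖ ≤ Real.exp |Real.log (‖((r⁻¹ : ℝ) : ℂ)‖)| *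
        Real.exp (C * (1 + ‖z‖) ^ ρ) := mul_le_mul h1 (hb z) (norm_nonneg _) (Real.exp_pos _).le
      _ = Real.exp (|Real.log (‖((r⁻¹ : ℝ) : ℂ)‖)| + C * (1 + ‖z‖) ^ ρ) := (Real.exp_add _ _).symm
      _ ≤ _ := by
        refine Real.exp_le_exp.2 ?_
        have := abs_nonneg (Real.log (‖((r⁻¹ : ℝ) : ℂ)‖))
        nlinarith
  · intro z
    have h1 := (he z).mul_left ((r⁻¹ : ℝ) : ℂ)
    have h2 : ((r⁻¹ : ℝ) : ℂ) * ((r : ℂ) * X z) = X z := by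
      push_cast
      field_simp
    rw [h2] at h1
    have h3 : trm φ (fun z => ((r⁻¹ : ℝ) : ℂ) * G z) z = fun n => ((r⁻¹ : ℝ) : ℂ) * trm φ G z n :=
      funext fun n => trm_smul φ G hG _ z n
    rw [h3]
    exact h1

end Pool.Agent.Helper41.GN
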