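import Pool.Agent.N963.GN.Stm2

set_option autoImplicit false

/-!
# Dividing a real entire function by a real polynomial containing its zeros in a disc (helper41)
-/

namespace Pool.Agent.Helper41.GN

open Complex Filter Topology Polynomial Metric
open scoped ComplexConjugate
open Pool.Agent.N963.GN

/-- `f = P g` with `P` real and monic, with all its roots in the disc of radius `R`. -/
structure Dv (f : ℂ → ℂ) (R : ℝ) (P : ℝ[X]) (g : ℂ → ℂ) : Prop where
  monic : P.Monic
  diff : Differentiable ℂ g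
  sym : Sym g
  eq : ∀ w : ℂ, f w = aeval w P * g w
  up : ∀ w : ℂ, ‖aeval w P‖ ≤ (‖w‖ + R) ^ P.natDegree
  low : ∀ w : ℂ, R ≤ ‖w‖ → (‖w‖ - R) ^ P.natDegree ≤ ‖aeval w P‖
  low0 : ∀ w : ℂ, 2 * R ≤ ‖w‖ → ‖aeval (0 : ℂ) P‖ ≤ ‖aeval w P‖
  root : ∀ w : ℂ, aeval w P = 0 → f w = 0

lemma dv_one {f : ℂ → ℂ} (hf : Differentiable ℂ f) (hs : Sym f) (R : ℝ) : Dv f R 1 f where
  monic := monic_one
  diff := hf
  sym := hs
  eq w := by simp
  up w := by simp
  low w _ := by simp
  low0 w _ := by simp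
  root w h := by simp at h

/-- Dividing an entire function by `z - a`, where `a` is a zero. -/
lemma div_zero {g : ℂ → ℂ} (hg : Differentiable ℂ g) {a : ℂ} (ha : g a = 0) :
    Differentiable ℂ (dslope g a) ∧ ∀ z, g z = (z - a) * dslope g a z := by
  constructor
  · have h := (Complex.differentiableOn_dslope (s := Set.univ) (f := g) (c := a) univ_mem).2 hg.differentiableOn
    exact differentiableOn_univ.1 h
  · intro z
    have := sub_smul_dslope g a z
    rw [ha, sub_zero, smul_eq_mul] at this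
    exact this.symm

lemma sym_of_eventually {h : ℂ → ℂ} (hh : Continuous h) {s : Finset ℂ}
    (h1 : ∀ z, z ∉ s → h (conj z) = conj (h z)) : Sym h := by
  have hd : Dense ((s : Set ℂ)ᶜ) := by
    exact (s.finite_toSet.countable).dense_compl ℝ
  have hc : IsClosed {z : ℂ | h (conj z) = conj (h z)} :=
    isClosed_eq (hh.comp Complex.continuous_conj) (Complex.continuous_conj.comp hh)
  intro z
  have h2 : closure ((s : Set ℂ)ᶜ) ⊆ {z : ℂ | h (conj z) = conj (h z)} :=
    closure_minimal (fun z hz => h1 z (by simpa using hz)) hc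
  rw [hd.closure_eq] at h2
  exact h2 (Set.mem_univ z)

/-- Multiplication by a factor. -/
lemma dv_mul {f g g' : ℂ → ℂ} {R : ℝ} (hR : 0 ≤ R) {P q : ℝ[X]} (h : Dv f R P g) (hq : q.Monic)
    (hd : Differentiable ℂ g') (hs : Sym g') (he : ∀ w : ℂ, g w = aeval w q * g' w)
    (up : ∀ w : ℂ, ‖aeval w q‖ ≤ (‖w‖ + R) ^ q.natDegree)
    (low : ∀ w : ℂ, R ≤ ‖w‖ → (‖w‖ - R) ^ q.natDegree ≤ ‖aeval w q‖)
    (low0 : ∀ w : ℂ, 2 * R ≤ ‖w‖ → ‖aeval (0 : ℂ) q‖ ≤ ‖aeval w q‖) :
    Dv f R (P * q) g' where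
  monic := h.monic.mul hq
  diff := hd
  sym := hs
  eq w := by rw [h.eq, he, map_mul, mul_assoc]
  up w := by
    rw [map_mul, norm_mul, h.monic.natDegree_mul hq, pow_add]
    exact mul_le_mul (h.up w) (up w) (norm_nonneg _) (by positivity)
  low w hw := by
    rw [map_mul, norm_mul, h.monic.natDegree_mul hq, pow_add]
    have : 0 ≤ ‖w‖ - R := by linarith
    exact mul_le_mul (h.low w hw) (low w hw) (by positivity) (norm_nonneg _)
  low0 w hw := by
    rw [map_mul, norm_mul, map_mul, norm_mul]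
    exact mul_le_mul (h.low0 w hw) (low0 w hw) (norm_nonneg _) (norm_nonneg _)
  root w hw := by
    rw [map_mul] at hw
    rcases mul_eq_zero.1 hw with h1 | h1
    · exact h.root w h1
    · rw [h.eq, he, h1]
      simp

lemma lin_up {a w : ℂ} {R : ℝ} (ha : ‖a‖ ≤ R) : ‖w - a‖ ≤ ‖w‖ + R :=
  (norm_sub_le _ _).trans (by linarith)

lemma lin_low {a w : ℂ} {R : ℝ} (ha : ‖a‖ ≤ R) : ‖w‖ - R ≤ ‖w - a‖ := by
  have := norm_sub_norm_le w a
  linarith

lemma lin_low0 {a w : ℂ} {R : ℝ} (ha : ‖a‖ ≤ R) (hw : 2 * R ≤ ‖w‖) : ‖(0 : ℂ) - a‖ ≤ ‖w - a‖ := by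
  have := lin_low (w := w) ha
  rw [zero_sub, norm_neg]
  linarith

lemma dv_step {f g : ℂ → ℂ} {R : ℝ} (hR : 0 ≤ R) {P : ℝ[X]} (h : Dv f R P g) {a : ℂ} (ha : g a = 0)
    (haR : ‖a‖ ≤ R) : ∃ (P' : ℝ[X]) (g' : ℂ → ℂ), Dv f R P' g' ∧ P.natDegree < P'.natDegree := by
  by_cases him : a.im = 0
  · -- a real zero
    have ha' : a = (a.re : ℂ) := by
      apply Complex.ext <;> simp [him]
    obtain ⟨hd, he⟩ := div_zero h.diff ha
    refine ⟨P * (X - C a.re), dslope g a, ?_, ?_⟩
    · have hae : ∀ w : ℂ, aeval w (X - C a.re : ℝ[X]) = w - a := by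
        intro w
        rw [map_sub, aeval_X, aeval_C]
        conv_rhs => rw [ha']
        rfl
      refine dv_mul hR h (monic_X_sub_C _) hd ?_ (fun w => by rw [hae, he w]) ?_ ?_ ?_
      · refine sym_of_eventually hd.continuous (s := {a}) fun z hz => ?_
        have hz' : z ≠ a := by simpa using hz
        have hca : conj a = a := by rw [ha', Complex.conj_ofReal]
        have hz2 : conj z - a ≠ 0 := by
          intro h0
          apply hz'
          have := congrArg conj (sub_eq_zero.1 h0)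
          rw [Complex.conj_conj, hca] at this
          exact this
        have h1 := he (conj z)
        rw [h.sym z, he z, map_mul, map_sub, hca] at h1
        exact (mul_left_cancel₀ hz2 h1).symm
      · intro w
        rw [hae, natDegree_X_sub_C, pow_one]
        exact lin_up haR
      · intro w _
        rw [hae, natDegree_X_sub_C, pow_one]
        exact lin_low haR
      · intro w hw
        rw [hae, hae]
        exact lin_low0 haR hw
    · rw [h.monic.natDegree_mul (monic_X_sub_C _), natDegree_X_sub_C]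
      omega
  · -- a pair of zeros
    have hac : conj a ≠ a := by
      intro h0
      exact him (Complex.conj_eq_iff_im.1 h0)
    obtain ⟨hd, he⟩ := div_zero h.diff ha
    have hb : dslope g a (conj a) = 0 := by
      have h1 := he (conj a)
      rw [h.sym a, ha, map_zero] at h1
      rcases mul_eq_zero.1 h1.symm with h2 | h2
      · exact absurd (sub_eq_zero.1 h2) hac
      · exact h2
    obtain ⟨hd2, he2⟩ := div_zero hd hb
    set g' := dslope (dslope g a) (conj a) with hg'
    have hR' : ‖conj a‖ ≤ R := by rw [Complex.norm_conj]; exact haR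
    have hq : (X ^ 2 - C (2 * a.re) * X + C (normSq a) : ℝ[X]) = X ^ 2 + (- C (2 * a.re) * X + C (normSq a)) := by ring
    have hdeg : (- C (2 * a.re) * X + C (normSq a) : ℝ[X]).degree < ((2 : ℕ) : WithBot ℕ) := by
      have e : (- C (2 * a.re) * X + C (normSq a) : ℝ[X]) = C (-(2 * a.re)) * X + C (normSq a) := by simp
      rw [e]
      exact (degree_linear_le).trans_lt (by norm_num)
    have hmon : (X ^ 2 - C (2 * a.re) * X + C (normSq a) : ℝ[X]).Monic := by
      rw [hq]
      exact monic_X_pow_add hdeg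
    have hnd : (X ^ 2 - C (2 * a.re) * X + C (normSq a) : ℝ[X]).natDegree = 2 := by
      rw [hq]
      have h1 : (X ^ 2 + (- C (2 * a.re) * X + C (normSq a)) : ℝ[X]).degree = ((2 : ℕ) : WithBot ℕ) := by
        rw [degree_add_eq_left_of_degree_lt (by rw [degree_X_pow]; exact hdeg), degree_X_pow]
      exact natDegree_eq_of_degree_eq_some h1
    have hae : ∀ w : ℂ, aeval w (X ^ 2 - C (2 * a.re) * X + C (normSq a) : ℝ[X]) = (w - a) * (w - conj a) := by
      intro w
      simp only [map_add, map_sub, map_mul, map_pow, aeval_X, aeval_C]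
      have e1 : (algebraMap ℝ ℂ) (2 * a.re) = a + conj a := by
        rw [Complex.add_conj]
        rfl
      have e2 : (algebraMap ℝ ℂ) (normSq a) = a * conj a := by
        rw [Complex.mul_conj]
        rfl
      have e1' : (algebraMap ℝ ℂ) 2 * (algebraMap ℝ ℂ) a.re = a + conj a := by rw [← map_mul]; exact e1
      rw [e1', e2]
      ring
    refine ⟨P * (X ^ 2 - C (2 * a.re) * X + C (normSq a)), g', ?_, ?_⟩
    · refine dv_mul hR h hmon hd2 ?_ (fun w => by rw [hae, he w, he2 w]; ring) ?_ ?_ ?_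
      · refine sym_of_eventually hd2.continuous (s := {a, conj a}) fun z hz => ?_
        have hz' : z ≠ a ∧ z ≠ conj a := by simpa using hz
        have h1 : (conj z - a) * (conj z - conj a) ≠ 0 := by
          apply mul_ne_zero
          · intro h0
            apply hz'.2
            have := congrArg conj (sub_eq_zero.1 h0)
            rwa [Complex.conj_conj] at this
          · intro h0
            apply hz'.1
            have := congrArg conj (sub_eq_zero.1 h0)
            rwa [Complex.conj_conj, Complex.conj_conj] at this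
        have h2 : g (conj z) = (conj z - a) * (conj z - conj a) * g' (conj z) := by
          rw [he (conj z), he2 (conj z)]
          ring
        have h3 : conj (g z) = (conj z - a) * (conj z - conj a) * conj (g' z) := by
          rw [he z, he2 z]
          simp only [map_mul, map_sub, Complex.conj_conj]
          ring
        rw [h.sym z, h3] at h2
        exact (mul_left_cancel₀ h1 h2).symm
      · intro w
        rw [hae, hnd, norm_mul, sq]
        exact mul_le_mul (lin_up haR) (lin_up hR') (norm_nonneg _) (by positivity)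
      · intro w hw
        rw [hae, hnd, norm_mul, sq]
        have : 0 ≤ ‖w‖ - R := by linarith
        exact mul_le_mul (lin_low haR) (lin_low hR') this (norm_nonneg _)
      · intro w hw
        rw [hae, hae, norm_mul, norm_mul]
        exact mul_le_mul (lin_low0 haR hw) (lin_low0 hR' hw) (norm_nonneg _) (norm_nonneg _)
    · rw [h.monic.natDegree_mul hmon, hnd]
      omega

/-- The maximum principle on a disc about the origin. -/
lemma max_disc {g : ℂ → ℂ} (hg : Differentiable ℂ g) {r M : ℝ} (hr : 0 < r)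
    (h : ∀ w, ‖w‖ = r → ‖g w‖ ≤ M) {z : ℂ} (hz : ‖z‖ ≤ r) : ‖g z‖ ≤ M := by
  refine Complex.norm_le_of_forall_mem_frontier_norm_le (U := ball (0 : ℂ) r) isBounded_ball
    hg.diffContOnCl (fun w hw => ?_) ?_
  · rw [frontier_ball _ hr.ne', mem_sphere_zero_iff_norm] at hw
    exact h w hw
  · rw [closure_ball _ hr.ne']
    simpa using hz

/-- The number of divisions is bounded. -/
lemma dv_bound {f : ℂ → ℂ} (hf : Differentiable ℂ f) {w0 : ℂ} (h0 : f w0 ≠ 0) {R : ℝ} (hR : 0 ≤ R) :
    ∃ N : ℕ, ∀ (P : ℝ[X]) (g : ℂ → ℂ), Dv f R P g → P.natDegree ≤ N := by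
  set r : ℝ := 2 * (‖w0‖ + R) + R + 1 with hr
  have hr0 : 0 < r := by positivity
  obtain ⟨M, hM⟩ := (isCompact_sphere (0 : ℂ) r).exists_bound_of_continuousOn hf.continuous.continuousOn
  have hlim : Tendsto (fun n : ℕ => M * (1 / 2 : ℝ) ^ n) atTop (𝓝 (M * 0)) :=
    (tendsto_pow_atTop_nhds_zero_of_lt_one (by norm_num) (by norm_num)).const_mul M
  rw [mul_zero] at hlim
  obtain ⟨N, hN⟩ := (hlim.eventually_lt_const (norm_pos_iff.2 h0)).exists_forall_of_atTop
  refine ⟨N, fun P g h => ?_⟩
  by_contra hcon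
  push Not at hcon
  have h1 := hN P.natDegree hcon.le
  have hb : 0 < r - R := by rw [hr]; nlinarith [norm_nonneg w0]
  have hg : ‖g w0‖ ≤ M / (r - R) ^ P.natDegree := by
    refine max_disc h.diff hr0 (fun w hw => ?_) ?_
    · rw [le_div_iff₀ (by positivity)]
      have h2 := h.low w (by rw [hw, hr]; nlinarith [norm_nonneg w0])
      rw [hw] at h2
      have h3 := hM w (by simpa using hw)
      rw [h.eq, norm_mul] at h3
      calc ‖g w‖ * (r - R) ^ P.natDegree ≤ ‖g w‖ * ‖aeval w P‖ := by gcongr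
        _ ≤ M := by rw [mul_comm]; exact h3
    · rw [hr]; nlinarith [norm_nonneg w0]
  have hup := h.up w0
  have hM0 : 0 ≤ M := (norm_nonneg _).trans (hM (r : ℂ) (by simp [abs_of_pos hr0]))
  have h2 : ‖f w0‖ ≤ M * (1 / 2 : ℝ) ^ P.natDegree := by
    rw [h.eq, norm_mul]
    calc ‖aeval w0 P‖ * ‖g w0‖ ≤ (‖w0‖ + R) ^ P.natDegree * (M / (r - R) ^ P.natDegree) := by gcongr
      _ = M * ((‖w0‖ + R) / (r - R)) ^ P.natDegree := by rw [div_pow]; ring
      _ ≤ M * (1 / 2 : ℝ) ^ P.natDegree := by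
        have h3 : (‖w0‖ + R) / (r - R) ≤ 1 / 2 := by
          rw [div_le_div_iff₀ hb (by norm_num), hr]
          linarith
        have h4 : 0 ≤ (‖w0‖ + R) / (r - R) := by positivity
        exact mul_le_mul_of_nonneg_left (pow_le_pow_left₀ h4 h3 _) hM0
  linarith

/-- All the zeros in the disc. -/
theorem dv_max {f : ℂ → ℂ} (hf : Differentiable ℂ f) (hs : Sym f) (h0 : ∃ w, f w ≠ 0) {R : ℝ} (hR : 0 ≤ R) :
    ∃ (P : ℝ[X]) (g : ℂ → ℂ), Dv f R P g ∧ ∀ w, ‖w‖ ≤ R → g w ≠ 0 := by
  obtain ⟨w0, h0⟩ := h0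
  obtain ⟨N, hN⟩ := dv_bound hf h0 hR
  classical
  have hex : ∃ n, ∃ (P : ℝ[X]) (g : ℂ → ℂ), Dv f R P g ∧ N - P.natDegree = n :=
    ⟨_, 1, f, dv_one hf hs R, rfl⟩
  obtain ⟨P, g, h, hn⟩ := Nat.find_spec hex
  refine ⟨P, g, h, fun w hw hw0 => ?_⟩
  obtain ⟨P', g', h', hlt⟩ := dv_step hR h hw0 hw
  have h1 := hN P' g' h'
  have h2 := Nat.find_min' hex ⟨P', g', h', rfl⟩
  omega

end Pool.Agent.Helper41.GN
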