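import Pool.Agent.Helper41.GN.Cusp

set_option autoImplicit false

/-!
# Antiderivatives and sums of two shifts (helper41)
-/

namespace Pool.Agent.Helper41.GN

open Complex Filter Topology MeasureTheory Metric Polynomial
open scoped ComplexConjugate
open Pool.Agent.N963.GN

lemma lpc_id : LPc (fun s : ℂ => s) := by
  refine ⟨⟨1, one_ne_zero⟩, fun _ => X, fun N w hw => ?_, ?_⟩
  · rw [aeval_X] at hw
    rw [hw]
    rfl
  · simp only [aeval_X]
    intro u hu x
    exact ⟨Set.univ, univ_mem, Eventually.of_forall fun n y _ => refl_mem_uniformity hu⟩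

lemma lpc_cos {h : ℝ} (hh : h ≠ 0) : LPc (fun s : ℂ => 2 * Complex.cos (h * s)) := by
  refine lpc_of (σ := 1) (by fun_prop) (fun z => ?_) (by norm_num) (by norm_num) ?_ (by simp) (fun w hw => ?_)
  · simp only [map_mul, map_ofNat]
    rw [← Complex.cos_conj, map_mul, Complex.conj_ofReal]
  · refine ⟨|h| + 1, by positivity, fun z => ?_⟩
    rw [Real.rpow_one, norm_mul, Complex.norm_ofNat, Complex.cos, norm_div, Complex.norm_ofNat]
    have h1 : ‖cexp (h * z * I)‖ ≤ Real.exp (|h| * ‖z‖) := by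
      refine (Complex.norm_exp_le_exp_norm _).trans (le_of_eq ?_)
      rw [norm_mul, norm_mul, Complex.norm_I, Complex.norm_real, Real.norm_eq_abs, mul_one]
    have h2 : ‖cexp (-(h * z) * I)‖ ≤ Real.exp (|h| * ‖z‖) := by
      refine (Complex.norm_exp_le_exp_norm _).trans (le_of_eq ?_)
      rw [norm_mul, norm_neg, norm_mul, Complex.norm_I, Complex.norm_real, Real.norm_eq_abs, mul_one]
    have h3 := norm_add_le (cexp (h * z * I)) (cexp (-(h * z) * I))
    have h4 : 2 ≤ Real.exp 1 := by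
      have := Real.add_one_le_exp (1 : ℝ)
      linarith
    have h5 : Real.exp (|h| * ‖z‖) ≤ Real.exp ((|h| + 1) * (1 + ‖z‖)) / 2 := by
      rw [le_div_iff₀ (by norm_num)]
      calc Real.exp (|h| * ‖z‖) * 2 ≤ Real.exp (|h| * ‖z‖) * Real.exp 1 := by gcongr
        _ = Real.exp (|h| * ‖z‖ + 1) := (Real.exp_add _ _).symm
        _ ≤ _ := by
          refine Real.exp_le_exp.2 ?_
          nlinarith [norm_nonneg z, abs_nonneg h]
    linarith
  · have h1 : Complex.cos (h * w) = 0 := by simpa using hw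
    obtain ⟨k, hk⟩ := Complex.cos_eq_zero_iff.1 h1
    have hh' : (h : ℂ) ≠ 0 := by exact_mod_cast hh
    have h2 : w = (((2 * (k : ℝ) + 1) * Real.pi / 2 / h : ℝ) : ℂ) := by
      push_cast
      rw [← hk]
      field_simp
    rw [h2]
    exact Complex.ofReal_im _

/-- Taylor's formula. -/
lemma taylor {G : ℂ → ℂ} (hG : Differentiable ℂ G) (z w : ℂ) :
    HasSum (fun n : ℕ => w ^ n / (n.factorial : ℂ) * iteratedDeriv n G z) (G (z + w)) := by
  have h := Complex.hasSum_taylorSeries_of_entire hG z (z + w)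
  refine h.congr_fun fun n => ?_
  rw [add_sub_cancel_left, smul_eq_mul, smul_eq_mul]
  ring

lemma iter_exp (c : ℂ) (n : ℕ) : iteratedDeriv n (fun s : ℂ => cexp (c * s)) 0 = c ^ n := by
  have h := iteratedDeriv_cexp_const_mul n c
  rw [h]
  simp

lemma iter_cos (h : ℝ) (n : ℕ) : iteratedDeriv n (fun s : ℂ => 2 * Complex.cos (h * s)) 0 =
    (I * h) ^ n + (-(I * h)) ^ n := by
  have e : (fun s : ℂ => 2 * Complex.cos (h * s)) =
      (fun s : ℂ => cexp ((I * h) * s)) + fun s : ℂ => cexp ((-(I * h)) * s) := by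
    funext s
    rw [Pi.add_apply, Complex.cos]
    rw [show (h : ℂ) * s * I = I * h * s by ring, show -((h : ℂ) * s) * I = -(I * h) * s by ring]
    ring
  rw [e, iteratedDeriv_add, iter_exp, iter_exp]
  · exact (by fun_prop : ContDiff ℂ n (fun s : ℂ => cexp ((I * h) * s))).contDiffAt
  · exact (by fun_prop : ContDiff ℂ n (fun s : ℂ => cexp ((-(I * h)) * s))).contDiffAt

lemma trm_cos {G : ℂ → ℂ} (hG : Differentiable ℂ G) (h : ℝ) (z : ℂ) :
    HasSum (trm (fun s : ℂ => 2 * Complex.cos (h * s)) G z) (G (z + I * h) + G (z - I * h)) := by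
  have h1 := (taylor hG z (I * h)).add (taylor hG z (-(I * h)))
  rw [← sub_eq_add_neg] at h1
  refine h1.congr_fun fun n => ?_
  unfold trm
  rw [iter_cos]
  ring

lemma trm_id {G : ℂ → ℂ} (z : ℂ) : HasSum (trm (fun s : ℂ => s) G z) (deriv G z) := by
  have h1 : ∀ n, n ≠ 1 → trm (fun s : ℂ => s) G z n = 0 := by
    intro n hn
    unfold trm
    rcases n with _ | _ | n
    · simp
    · exact absurd rfl hn
    · have h2 : iteratedDeriv (n + 2) (fun s : ℂ => s) 0 = 0 := by
        rw [show (fun s : ℂ => s) = id from rfl]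
        rw [iteratedDeriv_succ']
        simp [iteratedDeriv_succ']
      rw [h2]
      simp
  have h3 := hasSum_single 1 (f := trm (fun s : ℂ => s) G z) h1
  have h4 : trm (fun s : ℂ => s) G z 1 = deriv G z := by
    unfold trm
    simp [iteratedDeriv_one]
  rwa [h4] at h3

end Pool.Agent.Helper41.GN
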