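import Pool.Agent.Helper41.GN.Div
import Pool.Agent.N400.GN.H3
import Pool.Agent.N963.GN.Stm3

set_option autoImplicit false

/-!
# Factorisation of real entire functions of order less than two with finitely many non-real zeros (helper41)
-/

namespace Pool.Agent.Helper41.GN

open Complex Filter Topology Polynomial Metric
open scoped ComplexConjugate
open Pool.Agent.N963.GN

/-- Growth of order at most `σ`. -/
def Gw (σ : ℝ) (f : ℂ → ℂ) : Prop := ∃ C : ℝ, 0 ≤ C ∧ ∀ z : ℂ, ‖f z‖ ≤ Real.exp (C * (1 + ‖z‖) ^ σ)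

lemma dv_growth {f g : ℂ → ℂ} {R σ : ℝ} {P : ℝ[X]} (hσ : 0 ≤ σ) (hR : 0 ≤ R) (hf : Gw σ f)
    (h : Dv f R P g) : Gw σ g := by
  obtain ⟨C, hC, hb⟩ := hf
  have h1 : 1 ≤ (2 + R) ^ σ := Real.one_le_rpow (by linarith) hσ
  have hle : ∀ w : ℂ, R + 1 ≤ ‖w‖ → ‖g w‖ ≤ ‖f w‖ := by
    intro w hw
    have h2 := h.low w (by linarith)
    have h3 : 1 ≤ (‖w‖ - R) ^ P.natDegree := one_le_pow₀ (by linarith)
    rw [h.eq, norm_mul]
    nlinarith [norm_nonneg (g w)]
  refine ⟨C * (2 + R) ^ σ, by positivity, fun w => ?_⟩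
  have h2 : 1 ≤ (1 + ‖w‖) ^ σ := Real.one_le_rpow (by linarith [norm_nonneg w]) hσ
  rcases le_total (R + 1) ‖w‖ with hw | hw
  · refine (hle w hw).trans ((hb w).trans (Real.exp_le_exp.2 ?_))
    rw [mul_assoc]
    refine mul_le_mul_of_nonneg_left ?_ hC
    nlinarith
  · refine (max_disc h.diff (by linarith) (M := Real.exp (C * (2 + R) ^ σ)) (fun v hv => ?_) hw).trans
      (Real.exp_le_exp.2 ?_)
    · refine (hle v (by rw [hv])).trans ((hb v).trans (Real.exp_le_exp.2 ?_))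
      rw [hv]
      apply le_of_eq
      ring_nf
    · have : 0 ≤ C * (2 + R) ^ σ := by positivity
      nlinarith

lemma pow_sub_pow_le {u v : ℂ} {K : ℝ} (hK : 1 ≤ K) (hu : ‖u‖ ≤ K) (hv : ‖v‖ ≤ K) (m : ℕ) :
    ‖u ^ m - v ^ m‖ ≤ m * K ^ m * ‖u - v‖ := by
  induction m with
  | zero => simp
  | succ m ih =>
    have e : u ^ (m + 1) - v ^ (m + 1) = u * (u ^ m - v ^ m) + (u - v) * v ^ m := by ring
    rw [e]
    refine (norm_add_le _ _).trans ?_
    rw [norm_mul, norm_mul, norm_pow]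
    have h1 : ‖u‖ * ‖u ^ m - v ^ m‖ ≤ K * (m * K ^ m * ‖u - v‖) := by gcongr
    have h2 : ‖u - v‖ * ‖v‖ ^ m ≤ ‖u - v‖ * K ^ (m + 1) := by
      gcongr
      exact (pow_le_pow_left₀ (norm_nonneg _) hv m).trans (pow_le_pow_right₀ hK (by omega))
    refine (add_le_add h1 h2).trans (le_of_eq ?_)
    push_cast
    ring

lemma exp_approx (b : ℂ) {r ε : ℝ} (hr : 0 ≤ r) (hε : 0 < ε) : ∃ m : ℕ, 0 < m ∧ ∀ w : ℂ, ‖w‖ ≤ r →
    ‖(1 + b / m * w) ^ m - cexp (b * w)‖ ≤ ε := by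
  set B : ℝ := ‖b‖ * r with hB
  have hB0 : 0 ≤ B := by positivity
  obtain ⟨m, hm⟩ := exists_nat_ge (max (B + 1) (Real.exp B * B ^ 2 / ε))
  have hm1 : B + 1 ≤ m := (le_max_left _ _).trans hm
  have hm2 : Real.exp B * B ^ 2 / ε ≤ m := (le_max_right _ _).trans hm
  have hm0 : (0 : ℝ) < m := by linarith
  have hmN : 0 < m := by exact_mod_cast hm0
  refine ⟨m, hmN, fun w hw => ?_⟩
  have hz : ‖b / m * w‖ ≤ B / m := by
    rw [norm_mul, norm_div, Complex.norm_natCast, hB, mul_div_right_comm]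
    gcongr
  have hBm : B / m ≤ 1 := by
    rw [div_le_one hm0]
    linarith
  have hz1 : ‖b / m * w‖ ≤ 1 := hz.trans hBm
  have hv : ‖cexp (b / m * w)‖ ≤ Real.exp (B / m) :=
    (Complex.norm_exp_le_exp_norm _).trans (Real.exp_le_exp.2 hz)
  have hu : ‖1 + b / m * w‖ ≤ Real.exp (B / m) := by
    refine (norm_add_le _ _).trans ?_
    rw [norm_one]
    have := Real.add_one_le_exp (B / m)
    linarith
  have he : cexp (b * w) = cexp (b / m * w) ^ m := by
    rw [← Complex.exp_nat_mul]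
    congr 1
    have : (m : ℂ) ≠ 0 := by exact_mod_cast hmN.ne'
    field_simp
  rw [he]
  refine (pow_sub_pow_le (Real.one_le_exp (by positivity)) hu hv m).trans ?_
  have h1 : ‖1 + b / m * w - cexp (b / m * w)‖ ≤ (B / m) ^ 2 := by
    rw [← norm_neg]
    have e : -(1 + b / m * w - cexp (b / m * w)) = cexp (b / m * w) - 1 - b / m * w := by ring
    rw [e]
    exact (Complex.norm_exp_sub_one_sub_id_le hz1).trans (by gcongr)
  have h2 : Real.exp (B / m) ^ m = Real.exp B := by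
    rw [← Real.exp_nat_mul]
    congr 1
    field_simp
  rw [h2]
  calc (m : ℝ) * Real.exp B * ‖1 + b / m * w - cexp (b / m * w)‖ ≤ m * Real.exp B * (B / m) ^ 2 := by gcongr
    _ = Real.exp B * B ^ 2 / m := by field_simp
    _ ≤ ε := by
      rw [div_le_iff₀ hε] at hm2
      rw [div_le_iff₀ hm0]
      linarith

/-- The error. -/
noncomputable def del (C σ c : ℝ) (N : ℕ) : ℝ := 16 * (C * (1 + 2 * ((N : ℝ) + 1)) ^ σ - c) / ((N : ℝ) + 1) ^ 2

lemma tendsto_del (C c : ℝ) {σ : ℝ} (hσ0 : 0 ≤ σ) (hσ : σ < 2) : Tendsto (del C σ c) atTop (𝓝 0) := by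
  have hN : Tendsto (fun N : ℕ => (N : ℝ) + 1) atTop atTop :=
    tendsto_natCast_atTop_atTop.atTop_add tendsto_const_nhds
  have h1 : Tendsto (fun x : ℝ => (1 + 2 * x) ^ σ / x ^ 2) atTop (𝓝 0) := by
    have h2 : Tendsto (fun x : ℝ => 3 ^ σ * x ^ (-(2 - σ))) atTop (𝓝 (3 ^ σ * 0)) :=
      (tendsto_rpow_neg_atTop (by linarith)).const_mul _
    rw [mul_zero] at h2
    refine squeeze_zero' ?_ ?_ h2
    · filter_upwards [eventually_ge_atTop 1] with x hx
      positivity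
    · filter_upwards [eventually_ge_atTop 1] with x hx
      have hx0 : 0 < x := by linarith
      have h3 : (1 + 2 * x) ^ σ ≤ (3 * x) ^ σ := Real.rpow_le_rpow (by linarith) (by linarith) hσ0
      rw [Real.mul_rpow (by norm_num) hx0.le] at h3
      have h4 : x ^ (-(2 - σ)) = x ^ σ / x ^ 2 := by
        rw [neg_sub, Real.rpow_sub hx0]
        norm_num
      rw [h4, ← mul_div_assoc]
      gcongr
  have h2 : Tendsto (fun x : ℝ => c / x ^ 2) atTop (𝓝 0) :=
    tendsto_const_nhds.div_atTop (tendsto_pow_atTop (by norm_num))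
  have h3 := ((h1.const_mul C).sub h2).const_mul 16
  simp only [mul_zero, sub_zero] at h3
  refine (h3.comp hN).congr (fun N => ?_)
  simp only [Function.comp_apply, del]
  have : ((N : ℝ) + 1) ≠ 0 := by positivity
  field_simp

lemma sym_deriv_zero {h : ℂ → ℂ} (hs : Sym h) : conj (deriv h 0) = deriv h 0 := by
  have e : (conj ∘ h ∘ conj : ℂ → ℂ) = h := by
    funext z
    simp only [Function.comp_apply]
    rw [hs z, Complex.conj_conj]
  have h1 := congrFun (deriv_conj_conj (f := h)) 0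
  rw [e] at h1
  simp only [Function.comp_apply, map_zero] at h1
  exact h1.symm

lemma rr_key {g : ℂ → ℂ} (hg : Differentiable ℂ g) (hs : Sym g) {σ C : ℝ}
    (hb : ∀ z : ℂ, ‖g z‖ ≤ Real.exp (C * (1 + ‖z‖) ^ σ)) (h0 : g 0 ≠ 0)
    (hz : ∀ w, g w = 0 → w.im = 0) (N : ℕ) : ∃ Q : ℝ[X], (∀ w : ℂ, aeval w Q = 0 → w.im = 0) ∧
      ∀ w : ℂ, ‖w‖ ≤ (N : ℝ) / 2 → ∃ e : ℂ, ‖e‖ ≤ del C σ (Real.log ‖g 0‖) N * ‖w‖ ^ 2 ∧
        ‖aeval w Q - g w * cexp e‖ ≤ 1 / ((N : ℝ) + 1) := by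
  have hR : (0 : ℝ) < (N : ℝ) + 1 := by positivity
  obtain ⟨P, h, hd, hnz⟩ := dv_max hg hs ⟨0, h0⟩ hR.le
  have hP0 : aeval (0 : ℂ) P ≠ 0 := by
    intro hc
    apply h0
    rw [hd.eq, hc, zero_mul]
  have hh0 : h 0 ≠ 0 := hnz 0 (by simp [hR.le])
  have hP0n : 0 < ‖aeval (0 : ℂ) P‖ := norm_pos_iff.2 hP0
  have hh0n : 0 < ‖h 0‖ := norm_pos_iff.2 hh0
  have hbd : ∀ w ∈ ball (0 : ℂ) ((N : ℝ) + 1), ‖h w‖ ≤
      Real.exp (C * (1 + 2 * ((N : ℝ) + 1)) ^ σ - Real.log ‖aeval (0 : ℂ) P‖) := by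
    intro w hw
    rw [mem_ball_zero_iff] at hw
    refine max_disc hd.diff (r := 2 * ((N : ℝ) + 1)) (by positivity) (fun v hv => ?_) (by linarith)
    rw [Real.exp_sub, Real.exp_log hP0n, le_div_iff₀ hP0n]
    have h1 := hd.low0 v (by rw [hv])
    have h2 := hb v
    rw [hd.eq, norm_mul, hv] at h2
    calc ‖h v‖ * ‖aeval (0 : ℂ) P‖ ≤ ‖h v‖ * ‖aeval v P‖ := by gcongr
      _ ≤ _ := by rw [mul_comm]; exact h2
  obtain ⟨hA, E, hE⟩ := Pool.Agent.N400.GN.base1 hd.diff hR (fun u hu => hnz u (by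
    rw [mem_ball_zero_iff] at hu; exact hu.le)) hbd
  have hreal : ∀ c : ℂ, conj c = c → ∃ x : ℝ, c = x := fun c hc => by
    refine ⟨c.re, ?_⟩
    apply Complex.ext
    · simp
    · simpa using Complex.conj_eq_iff_im.1 hc
  obtain ⟨c, hcr⟩ : ∃ c : ℝ, h 0 = c := by
    apply hreal
    have := hd.sym 0
    rw [map_zero] at this
    exact this.symm
  obtain ⟨b, hbr⟩ : ∃ b : ℝ, deriv h 0 / h 0 = b := by
    apply hreal
    rw [map_div₀, sym_deriv_zero hd.sym, hcr, Complex.conj_ofReal]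
  rw [hbr] at hE
  have hc0 : (c : ℂ) ≠ 0 := by rw [← hcr]; exact hh0
  -- approximation of the exponential
  set B : ℝ := ((N : ℝ) + ((N : ℝ) + 1)) ^ P.natDegree * ‖h 0‖ with hB
  have hB0 : 0 ≤ B := by positivity
  obtain ⟨m, hm, hap⟩ := exp_approx (b : ℂ) (r := N) (ε := 1 / (((N : ℝ) + 1) * (B + 1))) (by positivity)
    (by positivity)
  have hm' : (m : ℂ) ≠ 0 := by exact_mod_cast hm.ne'
  have hev : ∀ w : ℂ, aeval w (Polynomial.C c * P * (1 + Polynomial.C (b / m) * X) ^ m) =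
      (c : ℂ) * aeval w P * (1 + (b : ℂ) / m * w) ^ m := by
    intro w
    simp only [map_mul, map_pow, map_add, map_one, aeval_X, aeval_C, map_div₀, map_natCast,
      Complex.coe_algebraMap]
  refine ⟨Polynomial.C c * P * (1 + Polynomial.C (b / m) * X) ^ m, ?_, ?_⟩
  · intro w hw
    rw [hev] at hw
    rcases mul_eq_zero.1 hw with h1 | h1
    · rcases mul_eq_zero.1 h1 with h2 | h2
      · exact absurd h2 hc0
      · exact hz w (hd.root w h2)
    · have h2 := pow_eq_zero_iff (hm.ne') |>.1 h1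
      have hc := congrArg conj h2
      simp only [map_add, map_one, map_mul, map_div₀, Complex.conj_ofReal, map_natCast, map_zero] at hc
      have h3 : (b : ℂ) / m * (conj w - w) = 0 := by
        rw [mul_sub]
        linear_combination hc - h2
      rcases mul_eq_zero.1 h3 with h4 | h4
      · rw [h4] at h2
        simp at h2
      · exact Complex.conj_eq_iff_im.1 (sub_eq_zero.1 h4)
  · intro w hw
    have hwN : ‖w‖ ≤ N := by
      have : (0 : ℝ) ≤ N := Nat.cast_nonneg N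
      linarith
    obtain ⟨hEq, hEb⟩ := hE w (by linarith)
    refine ⟨-E w, ?_, ?_⟩
    · rw [norm_neg]
      refine hEb.trans (le_of_eq ?_)
      have e1 : Real.log ‖g 0‖ = Real.log ‖aeval (0 : ℂ) P‖ + Real.log ‖h 0‖ := by
        rw [hd.eq 0, norm_mul, Real.log_mul hP0n.ne' hh0n.ne']
      rw [del, e1, div_pow]
      ring
    · have e1 : g w * cexp (-E w) = aeval w P * (h 0 * cexp (b * w)) := by
        rw [hd.eq w, hEq, Complex.exp_add, Complex.exp_neg]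
        have := Complex.exp_ne_zero (E w)
        field_simp
      have e2 : aeval w (Polynomial.C c * P * (1 + Polynomial.C (b / m) * X) ^ m) - g w * cexp (-E w) =
          aeval w P * h 0 * ((1 + (b : ℂ) / m * w) ^ m - cexp (b * w)) := by
        rw [e1, hev, hcr]
        ring
      rw [e2, norm_mul, norm_mul]
      have h1 : ‖aeval w P‖ * ‖h 0‖ ≤ B := by
        rw [hB]
        gcongr
        refine (hd.up w).trans ?_
        gcongr
      calc ‖aeval w P‖ * ‖h 0‖ * ‖(1 + (b : ℂ) / m * w) ^ m - cexp (b * w)‖ ≤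
          B * (1 / (((N : ℝ) + 1) * (B + 1))) := by
            gcongr
            exact hap w hwN
        _ = (B / (B + 1)) * (1 / ((N : ℝ) + 1)) := by field_simp
        _ ≤ 1 * (1 / ((N : ℝ) + 1)) := by
          gcongr
          rw [div_le_one (by positivity)]
          linarith
        _ = _ := one_mul _

/-- A real entire function of order less than two with real zeros only is in the Laguerre-Polya class. -/
theorem lpc_of {g : ℂ → ℂ} (hg : Differentiable ℂ g) (hs : Sym g) {σ : ℝ} (hσ0 : 0 ≤ σ) (hσ : σ < 2)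
    (hgr : Gw σ g) (h0 : g 0 ≠ 0) (hz : ∀ w, g w = 0 → w.im = 0) : LPc g := by
  obtain ⟨C, hC, hb⟩ := hgr
  choose Q hQ1 hQ2 using rr_key hg hs hb h0 hz
  refine ⟨⟨0, h0⟩, Q, hQ1, ?_⟩
  rw [tendstoLocallyUniformly_iff_forall_isCompact]
  intro K hK
  rw [Metric.tendstoUniformlyOn_iff]
  intro ε hε
  obtain ⟨r, hr0, hr⟩ := hK.isBounded.exists_pos_norm_le
  obtain ⟨B, hB⟩ := hK.exists_bound_of_continuousOn hg.continuous.continuousOn
  have hd := tendsto_del C (Real.log ‖g 0‖) hσ0 hσ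
  have hd1 : Tendsto (fun N : ℕ => |del C σ (Real.log ‖g 0‖) N| * r ^ 2) atTop (𝓝 0) := by
    have := (hd.abs).mul_const (r ^ 2)
    simpa using this
  have hd2 : Tendsto (fun N : ℕ => |B| * (2 * (|del C σ (Real.log ‖g 0‖) N| * r ^ 2)) + 1 / ((N : ℝ) + 1))
      atTop (𝓝 0) := by
    have h1 := ((hd1.const_mul 2).const_mul |B|).add (tendsto_one_div_add_atTop_nhds_zero_nat (𝕜 := ℝ))
    simpa using h1
  filter_upwards [hd1.eventually_le_const (show (0 : ℝ) < 1 by norm_num), hd2.eventually_lt_const hε,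
    eventually_ge_atTop ⌈2 * r⌉₊] with N h1 h2 h3 w hw
  have hwr := hr w hw
  have hN : 2 * r ≤ N := (Nat.le_ceil _).trans (by exact_mod_cast h3)
  obtain ⟨e, he, hq⟩ := hQ2 N w (by linarith)
  have he1 : ‖e‖ ≤ |del C σ (Real.log ‖g 0‖) N| * r ^ 2 := by
    refine he.trans ?_
    have h4 : ‖w‖ ^ 2 ≤ r ^ 2 := by gcongr
    exact mul_le_mul (le_abs_self _) h4 (by positivity) (abs_nonneg _)
  have hexp := Complex.norm_exp_sub_one_le (he1.trans h1)
  rw [dist_eq_norm]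
  have e3 : g w - aeval w (Q N) = -(g w * (cexp e - 1)) - (aeval w (Q N) - g w * cexp e) := by ring
  rw [e3]
  refine lt_of_le_of_lt ((norm_sub_le _ _).trans ?_) h2
  rw [norm_neg, norm_mul]
  have hBw : ‖g w‖ ≤ |B| := (hB w hw).trans (le_abs_self _)
  refine add_le_add ?_ hq
  exact mul_le_mul hBw (hexp.trans (by gcongr)) (norm_nonneg _) (abs_nonneg _)

theorem rr_of {g : ℂ → ℂ} (hg : Differentiable ℂ g) (hs : Sym g) {σ : ℝ} (hσ0 : 0 ≤ σ) (hσ : σ < 2)
    (hgr : Gw σ g) (h0 : g 0 ≠ 0) (hz : ∀ w, g w = 0 → w.im = 0) : RR g := by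
  obtain ⟨-, Q, hQ1, hQ2⟩ := lpc_of hg hs hσ0 hσ hgr h0 hz
  refine ⟨hg, ⟨0, h0⟩, fun N => (Q N).map (algebraMap ℝ ℂ), fun N w hw => ?_, ?_⟩
  · apply hQ1 N w
    rw [aeval_def, eval₂_eq_eval_map]
    exact hw
  · convert hQ2 using 3 with N w
    rw [aeval_def, eval₂_eq_eval_map]

lemma nrz_ne {f : ℂ → ℂ} (hfin : (NRZ f).Finite) : ∃ w, f w ≠ 0 := by
  by_contra hcon
  push Not at hcon
  have h1 : NRZ f = {z : ℂ | z.im ≠ 0} := by
    ext z
    simp [NRZ, hcon z]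
  rw [h1] at hfin
  have h2 : Set.Infinite (Set.range (fun n : ℕ => (((n : ℝ) : ℂ) + I))) := by
    apply Set.infinite_range_of_injective
    intro a b hab
    have := congrArg Complex.re hab
    simpa using this
  apply h2
  refine hfin.subset ?_
  rintro _ ⟨n, rfl⟩
  simp

/-- The factorisation. -/
theorem factor {f : ℂ → ℂ} (hf : Differentiable ℂ f) (hs : Sym f) {σ : ℝ} (hσ0 : 0 ≤ σ) (hσ : σ < 2)
    (hgr : Gw σ f) (hfin : (NRZ f).Finite) (ρ : ℝ) :
    ∃ (P : ℝ[X]) (g : ℂ → ℂ), P ≠ 0 ∧ RR g ∧ Sym g ∧ Gw σ g ∧ (∀ w, f w = aeval w P * g w) ∧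
      ∀ w, ‖w‖ ≤ ρ → g w ≠ 0 := by
  obtain ⟨r, hr⟩ : ∃ r : ℝ, ∀ w ∈ NRZ f, ‖w‖ ≤ r := by
    obtain ⟨r, hr⟩ := (hfin.image (fun w => ‖w‖)).bddAbove
    exact ⟨r, fun w hw => hr (Set.mem_image_of_mem _ hw)⟩
  set R : ℝ := max 0 (max r ρ) with hRdef
  have hR : 0 ≤ R := le_max_left _ _
  have hRr : r ≤ R := (le_max_left _ _).trans (le_max_right _ _)
  have hRρ : ρ ≤ R := (le_max_right _ _).trans (le_max_right _ _)
  obtain ⟨P, g, hd, hnz⟩ := dv_max hf hs (nrz_ne hfin) hR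
  have hG := dv_growth hσ0 hR hgr hd
  refine ⟨P, g, hd.monic.ne_zero, rr_of hd.diff hd.sym hσ0 hσ hG (hnz 0 (by simpa using hR)) ?_, hd.sym, hG,
    hd.eq, fun w hw => hnz w (hw.trans hRρ)⟩
  intro w hw
  by_contra him
  have h1 : w ∈ NRZ f := ⟨by rw [hd.eq, hw, mul_zero], him⟩
  exact hnz w ((hr w h1).trans hRr) hw

theorem h1 : S_H1 := by
  intro f hf hs hgr hfin ρ
  exact factor hf hs (σ := 3 / 2) (by norm_num) (by norm_num) hgr hfin ρ

end Pool.Agent.Helper41.GN
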