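import Pool.Agent.Helper41.GN.Had
import Pool.Agent.N963.GN.Main
import Pool.Agent.N963.GN.T4b
import Pool.Agent.N282.GN.T5
import Pool.Agent.N868.GN.T6
import Pool.Agent.N712.GN.Z1
import Pool.Agent.N558.GN.Z0
import Pool.Agent.N455.GN.C3
import Pool.Agent.N134.GN.C2
import Pool.Agent.N525.GN.C5
import Pool.Agent.N400.GN.H2

set_option autoImplicit false

/-!
# Differential operators from the Laguerre-Polya class: the abstract theorem (helper41)

The specifications and the tasks T4b, T5, T6, Z0, Z1, A1-A4, C2, C3, C5, H2, H3 are the starting modules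
`Pool.Agent.*.GN.*`; H1 and C1 are `Pool.Agent.Helper41.GN.Had`.
-/

namespace Pool.Agent.Helper41.GN

open Complex Filter Topology MeasureTheory Polynomial Metric
open scoped ComplexConjugate
open Pool.Agent.N963.GN

/-- Task C1. -/
theorem c1 : S_C1 := by
  intro f hf hs hgr hfin
  obtain ⟨C, ρ, hC, hρ0, hρ2, hb⟩ := hgr
  obtain ⟨P, g, hP, hRR, hgs, -, hfac, -⟩ := factor hf hs hρ0 hρ2 ⟨C, hC, hb⟩ hfin 0
  refine ⟨P.natDegree, ?_⟩
  have h := Pool.Agent.N400.GN.h2 P g hP hRR hgs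
  rwa [← funext hfac] at h

lemma SL_ref {H : ℂ → ℂ} (hH : Differentiable ℂ H) (h : SL H) : SL (fun z => -H (-z)) := by
  intro A
  obtain ⟨x1, hx1, hb⟩ := h A
  refine ⟨x1, hx1, fun x hx => ?_⟩
  have h1 := hb (-x) (by rwa [abs_neg])
  have hd : deriv (fun z => -H (-z)) = fun z => deriv H (-z) := by
    funext z
    have h2 := (((hH (-z)).hasDerivAt).comp z (hasDerivAt_neg z)).neg
    have h3 := h2.deriv
    simp only [Function.comp_def, mul_neg, mul_one, neg_neg] at h3
    exact h3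
  have hd2 : deriv (fun z => deriv H (-z)) = fun z => -deriv (deriv H) (-z) := by
    funext z
    have h2 := ((((diff_deriv hH) (-z)).hasDerivAt).comp z (hasDerivAt_neg z))
    have h3 := h2.deriv
    simp only [Function.comp_def, mul_neg, mul_one] at h3
    exact h3
  rw [hd, hd2]
  simp only [norm_neg]
  rw [abs_neg] at h1
  push_cast at h1
  convert h1 using 2
  ring

/-- A function of exponential growth plus a bounded one does not satisfy `SL`. -/
lemma no_SL_exp {G0 : ℂ → ℂ} (hG0 : Differentiable ℂ G0) {B : ℝ}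
    (hB : ∀ x : ℝ, ‖G0 x‖ ≤ B ∧ ‖deriv G0 x‖ ≤ B ∧ ‖deriv (deriv G0) x‖ ≤ B) {a : ℝ} (ha : 0 < a) {c : ℂ}
    (hc : c ≠ 0) : ¬ SL (fun z => c * cexp (a * z) + G0 z) := by
  intro hSL
  obtain ⟨x1, hx1, hb⟩ := hSL 1
  have hB0 : 0 ≤ B := (norm_nonneg _).trans (hB 0).1
  have hE : ∀ z : ℂ, HasDerivAt (fun z : ℂ => cexp (a * z)) (a * cexp (a * z)) z := by
    intro z
    have h1 := (((hasDerivAt_id z).const_mul (a : ℂ)).cexp)
    simp only [id_eq, mul_one] at h1
    rw [mul_comm]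
    exact h1
  have hd : deriv (fun z => c * cexp (a * z) + G0 z) = fun z => c * (a * cexp (a * z)) + deriv G0 z := by
    funext z
    exact (((hE z).const_mul c).add (hG0 z).hasDerivAt).deriv
  have hd2 : deriv (fun z => c * (a * cexp (a * z)) + deriv G0 z) =
      fun z => c * (a * (a * cexp (a * z))) + deriv (deriv G0) z := by
    funext z
    exact ((((hE z).const_mul (a : ℂ)).const_mul c).add (diff_deriv hG0 z).hasDerivAt).deriv
  rw [hd, hd2] at hb
  have hc0 : 0 < ‖c‖ := norm_pos_iff.2 hc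
  -- far out
  have hexp : Tendsto (fun x : ℝ => Real.exp (a * x)) atTop atTop :=
    Real.tendsto_exp_atTop.comp (tendsto_id.const_mul_atTop ha)
  have hlog := Real.tendsto_log_atTop
  set D : ℝ := ‖c‖ * B * (a ^ 2 + 2 * a + 1) + 2 * B ^ 2 with hD
  have hD0 : 0 ≤ D := by positivity
  obtain ⟨x, hx⟩ := ((((hexp.eventually_ge_atTop (2 * B / ‖c‖ + 1)).and
    (hlog.eventually_gt_atTop (4 * D / ‖c‖ ^ 2))).and (eventually_ge_atTop x1)).and
    (eventually_ge_atTop (1 : ℝ))).exists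
  obtain ⟨⟨⟨hxe, hxl⟩, hxx⟩, hx1'⟩ := hx
  have hxabs : |x| = x := abs_of_nonneg (by linarith)
  have h1 := hb x (by rw [hxabs]; exact hxx)
  rw [hxabs, one_mul] at h1
  beta_reduce at h1
  set E : ℝ := Real.exp (a * x) with hEdef
  have hEe : cexp (a * (x : ℂ)) = (E : ℂ) := by
    rw [hEdef]
    push_cast
    rfl
  rw [hEe] at h1
  have hE1 : 1 ≤ E := by
    have : 0 ≤ 2 * B / ‖c‖ := by positivity
    linarith
  obtain ⟨b0, b1, b2⟩ := hB x
  have hlow : ‖c‖ * E / 2 ≤ ‖c * (E : ℂ) + G0 x‖ := by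
    have h2 : ‖c * (E : ℂ)‖ - ‖G0 x‖ ≤ ‖c * (E : ℂ) + G0 x‖ := by
      have h3 := norm_sub_norm_le (c * (E : ℂ)) (-(G0 x))
      rw [norm_neg, sub_neg_eq_add] at h3
      exact h3
    have h3 : ‖c * (E : ℂ)‖ = ‖c‖ * E := by
      rw [norm_mul, Complex.norm_real, Real.norm_eq_abs, abs_of_pos (by linarith)]
    rw [h3] at h2
    have h4 : 2 * B ≤ ‖c‖ * E := by
      have h5 : 2 * B / ‖c‖ ≤ E := by linarith
      rw [div_le_iff₀ hc0] at h5
      linarith
    linarith
  have hup : ((c * (a * (E : ℂ)) + deriv G0 x) ^ 2 - (c * (E : ℂ) + G0 x) *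
      (c * (a * (a * (E : ℂ))) + deriv (deriv G0) x)).re ≤ D * E := by
    have e : (c * (a * (E : ℂ)) + deriv G0 x) ^ 2 - (c * (E : ℂ) + G0 x) *
      (c * (a * (a * (E : ℂ))) + deriv (deriv G0) x) =
      (c * (E : ℂ)) * (2 * (a : ℂ) * deriv G0 x - deriv (deriv G0) x - (a : ℂ) ^ 2 * G0 x) +
        (deriv G0 x ^ 2 - G0 x * deriv (deriv G0) x) := by ring
    rw [e]
    refine (Complex.re_le_norm _).trans ((norm_add_le _ _).trans ?_)
    have n1 : ‖c * (E : ℂ)‖ = ‖c‖ * E := by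
      rw [norm_mul, Complex.norm_real, Real.norm_eq_abs, abs_of_pos (by linarith)]
    have na : ‖(a : ℂ)‖ = a := by
      rw [Complex.norm_real, Real.norm_eq_abs, abs_of_pos ha]
    have n2 : ‖2 * (a : ℂ) * deriv G0 x - deriv (deriv G0) x - (a : ℂ) ^ 2 * G0 x‖ ≤
        2 * a * B + B + a ^ 2 * B := by
      refine (norm_sub_le _ _).trans (add_le_add ((norm_sub_le _ _).trans (add_le_add ?_ b2)) ?_)
      · rw [norm_mul, norm_mul, na, Complex.norm_ofNat]
        gcongr
      · rw [norm_mul, norm_pow, na]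
        gcongr
    have n3 : ‖deriv G0 x ^ 2 - G0 x * deriv (deriv G0) x‖ ≤ 2 * B ^ 2 := by
      refine (norm_sub_le _ _).trans ?_
      rw [norm_pow, norm_mul]
      have h5 : ‖deriv G0 x‖ ^ 2 ≤ B ^ 2 := by gcongr
      have h6 : ‖G0 x‖ * ‖deriv (deriv G0) x‖ ≤ B * B := by gcongr
      nlinarith
    rw [norm_mul, n1]
    have h7 : ‖c‖ * E * ‖2 * (a : ℂ) * deriv G0 x - deriv (deriv G0) x - (a : ℂ) ^ 2 * G0 x‖ ≤
        ‖c‖ * E * (2 * a * B + B + a ^ 2 * B) := by gcongr
    have h8 : 2 * B ^ 2 ≤ 2 * B ^ 2 * E := by nlinarith [sq_nonneg B]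
    rw [hD]
    nlinarith
  have h2 : Real.log x * (‖c‖ * E / 2) ^ 2 ≤ D * E := by
    refine le_trans ?_ (h1.trans hup)
    have : 0 ≤ Real.log x := Real.log_nonneg hx1'
    gcongr
  have h3 : D < Real.log x * (‖c‖ ^ 2 / 4) := by
    rw [div_lt_iff₀ (by positivity)] at hxl
    linarith
  have h4 : Real.log x * (‖c‖ * E / 2) ^ 2 = (Real.log x * (‖c‖ ^ 2 / 4)) * E * E := by ring
  rw [h4] at h2
  have h5 : D * E < Real.log x * (‖c‖ ^ 2 / 4) * E := by
    apply mul_lt_mul_of_pos_right h3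
    linarith
  have h6 : Real.log x * (‖c‖ ^ 2 / 4) * E ≤ (Real.log x * (‖c‖ ^ 2 / 4)) * E * E := by
    have : 0 ≤ Real.log x * (‖c‖ ^ 2 / 4) * E := by
      have : 0 ≤ Real.log x := Real.log_nonneg hx1'
      positivity
    nlinarith
  linarith

variable {K : ℂ → ℂ} {α : ℝ}

lemma bdd_Lt (h : ℝ → ℂ) : ∃ B : ℝ, ∀ x : ℝ, ‖Lt h x‖ ≤ B := by
  refine ⟨∫ u : ℝ, ‖h u‖, fun x => ?_⟩
  unfold Lt
  refine (norm_integral_le_integral_norm _).trans (le_of_eq ?_)
  congr 1
  funext u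
  rw [norm_mul]
  have : ‖cexp (I * (x : ℂ) * u)‖ = 1 := by
    rw [show I * (x : ℂ) * u = ((x * u : ℝ) : ℂ) * I by push_cast; ring]
    exact Complex.norm_exp_ofReal_mul_I _
  rw [this, mul_one]

lemma SL_smul {H : ℂ → ℂ} (hH : Differentiable ℂ H) {c : ℝ} (hc : c ≠ 0) (h : SL (fun z => c * H z)) :
    SL H := by
  intro A
  obtain ⟨x1, hx1, hb⟩ := h A
  refine ⟨x1, hx1, fun x hx => ?_⟩
  have h1 := hb x hx
  have hd : deriv (fun z => (c : ℂ) * H z) = fun z => c * deriv H z := by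
    funext z
    exact ((hH z).hasDerivAt.const_mul (c : ℂ)).deriv
  have hd2 : deriv (fun z => (c : ℂ) * deriv H z) = fun z => c * deriv (deriv H) z := by
    funext z
    exact ((diff_deriv hH z).hasDerivAt.const_mul (c : ℂ)).deriv
  rw [hd, hd2] at h1
  beta_reduce at h1
  have e : (c * deriv H x) ^ 2 - c * H x * (c * deriv (deriv H) x) =
      ((c ^ 2 : ℝ) : ℂ) * ((deriv H x) ^ 2 - H x * deriv (deriv H) x) := by
    push_cast
    ring
  rw [e, Complex.re_ofReal_mul, norm_mul, Complex.norm_real, mul_pow, Real.norm_eq_abs, sq_abs] at h1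
  have hc2 : 0 < c ^ 2 := by positivity
  have h2 : c ^ 2 * (A * Real.log |x| * ‖H x‖ ^ 2) ≤ c ^ 2 * ((deriv H x) ^ 2 - H x * deriv (deriv H) x).re := by
    linarith
  exact le_of_mul_le_mul_left h2 hc2

lemma no_SL_pos (hK : Kern K α) (hM : MS K α) {a : ℝ} (ha : 0 < a) {H : ℂ → ℂ} (hH : Differentiable ℂ H)
    (he : ∀ z : ℂ, deriv H z - a * H z = Lt (fun u : ℝ => K (u : ℂ)) z) : ¬ SL H := by
  have hw := wt_real hK ha
  have hX := X_eq hK ha
  set G0 : ℂ → ℂ := Lt (fun u : ℝ => Ka K a (u : ℂ)) with hG0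
  have hG0d : Differentiable ℂ G0 := diff_Lt hw
  have ha' : (a : ℂ) ≠ 0 := by exact_mod_cast ha.ne'
  -- `H = c e^(a z) - G0 / a`
  have hdy : ∀ z : ℂ, HasDerivAt (fun z => (H z + G0 z / a) * cexp (-(a * z))) 0 z := by
    intro z
    have h1 := (hH z).hasDerivAt.add ((hG0d z).hasDerivAt.div_const (a : ℂ))
    have h2 : HasDerivAt (fun z : ℂ => cexp (-(a * z))) (cexp (-(a * z)) * (-(a : ℂ))) z := by
      have h3 := ((((hasDerivAt_id z).const_mul (a : ℂ)).neg).cexp)
      simp only [id_eq, mul_one] at h3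
      exact h3
    have h3 := h1.mul h2
    have h4 : (deriv H z + deriv G0 z / a) * cexp (-(a * z)) + (H z + G0 z / a) * (cexp (-(a * z)) * (-(a : ℂ))) = 0 := by
      have h5 : deriv H z = a * H z + (G0 z - deriv G0 z / a) := by
        have h6 := he z
        rw [← hX] at h6
        beta_reduce at h6
        rw [← h6]
        ring
      rw [h5]
      field_simp
      ring
    rw [← h4]
    exact h3
  obtain ⟨c, hc⟩ : ∃ c : ℂ, ∀ z, H z = c * cexp (a * z) + (-(1 / a) : ℝ) * G0 z := by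
    refine ⟨H 0 + G0 0 / a, fun z => ?_⟩
    have h1 := is_const_of_deriv_eq_zero (f := fun z => (H z + G0 z / a) * cexp (-(a * z)))
      (fun z => (hdy z).differentiableAt) (fun z => (hdy z).deriv) z 0
    simp only [mul_zero, neg_zero, Complex.exp_zero, mul_one] at h1
    rw [← h1, mul_assoc, ← Complex.exp_add]
    simp only [neg_add_cancel, Complex.exp_zero, mul_one]
    push_cast
    ring
  have hHe : H = fun z => c * cexp (a * z) + (-(1 / a) : ℝ) * G0 z := funext hc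
  by_cases hc0 : c = 0
  · rw [hHe, hc0]
    intro hSL
    have h1 : SL (fun z => ((-(1 / a) : ℝ) : ℂ) * G0 z) := by
      convert hSL using 2 with z
      ring
    exact Pool.Agent.N868.GN.t_T6 K α hK hM a ha (SL_smul hG0d (by simpa using ha.ne') h1)
  · rw [hHe]
    have hw1 := hw.mulId
    obtain ⟨B0, hB0⟩ := bdd_Lt (fun u : ℝ => Ka K a (u : ℂ))
    obtain ⟨B1, hB1⟩ := bdd_Lt (fun u : ℝ => Ka K a (u : ℂ) * (I * u))
    obtain ⟨B2, hB2⟩ := bdd_Lt (fun u : ℝ => Ka K a (u : ℂ) * (I * u) * (I * u))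
    have hd1 : deriv G0 = Lt (fun u : ℝ => Ka K a (u : ℂ) * (I * u)) := deriv_Lt hw
    have hd2 : deriv (deriv G0) = Lt (fun u : ℝ => Ka K a (u : ℂ) * (I * u) * (I * u)) := by
      rw [hd1]; exact deriv_Lt hw1
    have hs1 : deriv (fun z => ((-(1 / a) : ℝ) : ℂ) * G0 z) = fun z => ((-(1 / a) : ℝ) : ℂ) * deriv G0 z := by
      funext z
      exact ((hG0d z).hasDerivAt.const_mul _).deriv
    have hs2 : deriv (fun z => ((-(1 / a) : ℝ) : ℂ) * deriv G0 z) =
        fun z => ((-(1 / a) : ℝ) : ℂ) * deriv (deriv G0) z := by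
      funext z
      exact ((diff_deriv hG0d z).hasDerivAt.const_mul _).deriv
    refine no_SL_exp (G0 := fun z => ((-(1 / a) : ℝ) : ℂ) * G0 z)
      (B := |-(1 / a)| * max (max |B0| |B1|) |B2|) (hG0d.const_mul _) (fun x => ?_) ha hc0
    rw [hs1, hs2]
    beta_reduce
    rw [norm_mul, norm_mul, norm_mul, Complex.norm_real, Real.norm_eq_abs]
    refine ⟨?_, ?_, ?_⟩
    · gcongr
      exact (hB0 x).trans ((le_abs_self _).trans ((le_max_left _ _).trans (le_max_left _ _)))
    · gcongr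
      rw [hd1]
      exact (hB1 x).trans ((le_abs_self _).trans ((le_max_right _ _).trans (le_max_left _ _)))
    · gcongr
      rw [hd2]
      exact (hB2 x).trans ((le_abs_self _).trans (le_max_right _ _))

theorem no_SL (hK : Kern K α) (hM : MS K α) (a : ℝ) {H : ℂ → ℂ} (hH : Differentiable ℂ H)
    (he : ∀ z : ℂ, deriv H z - a * H z = Lt (fun u : ℝ => K (u : ℂ)) z) : ¬ SL H := by
  rcases lt_trichotomy a 0 with ha | ha | ha
  · obtain ⟨r1, r2, r3, r4⟩ := Pool.Agent.N170.GN.r K α hK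
    intro hSL
    refine no_SL_pos r1 (r2 hM) (neg_pos.2 ha) (H := fun z => -H (-z)) ?_ ?_ (SL_ref hH hSL)
    · exact (hH.comp differentiable_neg).neg
    · intro z
      have hd : deriv (fun z => -H (-z)) z = deriv H (-z) := by
        have h2 := (((hH (-z)).hasDerivAt).comp z (hasDerivAt_neg z)).neg
        have h3 := h2.deriv
        simp only [Function.comp_def, mul_neg, mul_one, neg_neg] at h3
        exact h3
      rw [hd]
      have h1 := he (-z)
      have h2 : Lt (fun u : ℝ => K (-(u : ℂ))) z = Lt (fun u : ℝ => K (u : ℂ)) (-z) := by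
        unfold Lt
        rw [← integral_neg_eq_self (fun u : ℝ => K (-(u : ℂ)) * cexp (I * z * u))]
        congr 1
        funext u
        push_cast
        rw [neg_neg]
        ring_nf
      rw [h2, ← h1]
      push_cast
      ring
  · subst ha
    have he' : ∀ z : ℂ, deriv H z = Lt (fun u : ℝ => K (u : ℂ)) z := by
      intro z
      rw [← he z]
      simp
    by_cases h0 : K 0 = 0
    · exact Pool.Agent.N712.GN.Z1 K α hK hM h0 H hH he'
    · exact Pool.Agent.N558.GN.z0 K α hK h0 H hH he'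
  · exact no_SL_pos hK hM ha hH he

/-- Growth of the solutions of `H' - a H = X`. -/
lemma gro_ode {H X : ℂ → ℂ} (hH : Differentiable ℂ H) {a : ℝ} (he : ∀ z : ℂ, deriv H z - a * H z = X z)
    (hX : Gro X) : Gro H := by
  obtain ⟨C, hC, hb⟩ := hX
  refine ⟨2 * |a| + ‖H 0‖ + 1 + C, by positivity, fun z => ?_⟩
  set r : ℝ := ‖z‖ with hr
  have hr0 : 0 ≤ r := norm_nonneg _
  set t : ℝ := (1 + r) ^ (3 / 2 : ℝ) with ht
  have ht1 : 1 + r ≤ t := by
    rw [ht]
    calc 1 + r = (1 + r) ^ (1 : ℝ) := (Real.rpow_one _).symm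
      _ ≤ (1 + r) ^ (3 / 2 : ℝ) := Real.rpow_le_rpow_of_exponent_le (by linarith) (by norm_num)
  have hE : ∀ w : ℂ, HasDerivAt (fun w : ℂ => cexp (-(a * w)) * H w) (cexp (-(a * w)) * X w) w := by
    intro w
    have h3 := ((((hasDerivAt_id w).const_mul (a : ℂ)).neg).cexp)
    simp only [id_eq, mul_one] at h3
    have h4 := h3.mul (hH w).hasDerivAt
    rw [← he w]
    have e : cexp (-(a * w)) * (deriv H w - a * H w) =
        cexp (-(a * w)) * -(a : ℂ) * H w + cexp (-(a * w)) * deriv H w := by ring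
    rw [e]
    exact h4
  have hbd : ∀ w ∈ closedBall (0 : ℂ) r, ‖cexp (-(a * w)) * X w‖ ≤ Real.exp (|a| * r + C * t) := by
    intro w hw
    rw [mem_closedBall_zero_iff] at hw
    rw [norm_mul, Real.exp_add]
    have h5 : ‖cexp (-(a * w))‖ ≤ Real.exp (|a| * r) := by
      refine (Complex.norm_exp_le_exp_norm _).trans (Real.exp_le_exp.2 ?_)
      rw [norm_neg, norm_mul, Complex.norm_real, Real.norm_eq_abs]
      gcongr
    have h6 : ‖X w‖ ≤ Real.exp (C * t) := by
      refine (hb w).trans (Real.exp_le_exp.2 ?_)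
      rw [ht]
      gcongr
    exact mul_le_mul h5 h6 (norm_nonneg _) (Real.exp_pos _).le
  have hmv := (convex_closedBall (0 : ℂ) r).norm_image_sub_le_of_norm_hasDerivWithin_le (𝕜 := ℂ)
    (f := fun w : ℂ => cexp (-(a * w)) * H w) (f' := fun w => cexp (-(a * w)) * X w)
    (fun w _ => (hE w).hasDerivWithinAt) hbd (mem_closedBall_self hr0)
    (show z ∈ closedBall (0 : ℂ) r by rw [mem_closedBall_zero_iff])
  simp only [mul_zero, neg_zero, Complex.exp_zero, one_mul, sub_zero] at hmv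
  rw [← hr] at hmv
  have h7 : H z = cexp (a * z) * (cexp (-(a * z)) * H z) := by
    rw [← mul_assoc, ← Complex.exp_add]
    simp
  have h8 : ‖cexp (a * z)‖ ≤ Real.exp (|a| * r) := by
    refine (Complex.norm_exp_le_exp_norm _).trans (Real.exp_le_exp.2 ?_)
    rw [norm_mul, Complex.norm_real, Real.norm_eq_abs]
  have h9 : ‖cexp (-(a * z)) * H z‖ ≤ (‖H 0‖ + r) * Real.exp (|a| * r + C * t) := by
    have h10 : ‖cexp (-(a * z)) * H z‖ ≤ ‖H 0‖ + Real.exp (|a| * r + C * t) * r := by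
      have h11 := norm_sub_norm_le (cexp (-(a * z)) * H z) (H 0)
      linarith
    have h12 : 1 ≤ Real.exp (|a| * r + C * t) := Real.one_le_exp (by positivity)
    nlinarith [norm_nonneg (H 0)]
  have h13 : ‖H 0‖ + r ≤ Real.exp (‖H 0‖ + r) := by
    have := Real.add_one_le_exp (‖H 0‖ + r)
    linarith
  rw [h7, norm_mul]
  calc ‖cexp (a * z)‖ * ‖cexp (-(a * z)) * H z‖
      ≤ Real.exp (|a| * r) * (Real.exp (‖H 0‖ + r) * Real.exp (|a| * r + C * t)) := by
        refine mul_le_mul h8 (h9.trans ?_) (norm_nonneg _) (Real.exp_pos _).le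
        exact mul_le_mul_of_nonneg_right h13 (Real.exp_pos _).le
    _ = Real.exp (|a| * r + (‖H 0‖ + r + (|a| * r + C * t))) := by
        rw [← Real.exp_add, ← Real.exp_add]
    _ ≤ Real.exp ((2 * |a| + ‖H 0‖ + 1 + C) * t) := by
        refine Real.exp_le_exp.2 ?_
        have h14 : |a| * r ≤ |a| * t := by
          gcongr
          linarith
        have h15 : ‖H 0‖ ≤ ‖H 0‖ * t := by nlinarith [norm_nonneg (H 0)]
        nlinarith

lemma LPc.differentiable {φ : ℂ → ℂ} (h : LPc φ) : Differentiable ℂ φ := by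
  obtain ⟨hne, Q, hQ, hlim⟩ := h
  have h1 := (tendstoLocallyUniformlyOn_univ.2 hlim).differentiableOn
    (Eventually.of_forall fun N => (Polynomial.differentiable_aeval (Q N)).differentiableOn) isOpen_univ
  exact differentiableOn_univ.1 h1

/-- **The abstract theorem.**  If `φ` is in the Laguerre-Polya class and has a zero, and `G` is a real entire function
of order less than two with `φ(D) G = X`, then `G` has infinitely many non-real zeros. -/
theorem op_main (hK : Kern K α) (hM : MS K α) (hL : LD (Lt (fun u : ℝ => K (u : ℂ)))) {φ : ℂ → ℂ} (hφ : LPc φ)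
    (hz : ∃ s, φ s = 0) {G : ℂ → ℂ} (hG : Differentiable ℂ G) (hs : Sym G) (hgr : Gr2 G)
    (he : ∀ z : ℂ, HasSum (trm φ G z) (Lt (fun u : ℝ => K (u : ℂ)) z)) : (NRZ G).Infinite := by
  intro hfin
  set X : ℂ → ℂ := Lt (fun u : ℝ => K (u : ℂ)) with hX
  obtain ⟨m, hA⟩ := c1 G hG hs hgr hfin
  obtain ⟨a0, ha0⟩ := hz
  obtain ⟨him, ψ, hψ, hφψ⟩ := Pool.Agent.N455.GN.c3 φ hφ a0 ha0
  obtain ⟨-, hHd, hHs, hHA, hH⟩ := Pool.Agent.N525.GN.t_C5 Pool.Agent.N134.GN.c2 ψ hψ G hG hgr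
  obtain ⟨-, -, -, hXA, -⟩ := Pool.Agent.N525.GN.t_C5 Pool.Agent.N134.GN.c2 φ hφ G hG hgr
  set H : ℂ → ℂ := fun z => ∑' n, trm ψ G z n with hHdef
  have ha : a0 = ((a0.re : ℝ) : ℂ) := by apply Complex.ext <;> simp [him]
  set a : ℝ := a0.re with hadef
  have hode : ∀ z : ℂ, deriv H z - a * H z = X z := by
    intro z
    have h1 := hH a0 z
    have h2 : (fun s => (s - a0) * ψ s) = φ := by
      funext s
      rw [hφψ s]
    rw [h2] at h1
    rw [← ha]
    exact h1.unique (he z)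
  have hAX : App m X := by
    have h1 := hXA m hA
    have h2 : (fun z => ∑' n, trm φ G z n) = X := by
      funext z
      exact (he z).tsum_eq
    rwa [h2] at h1
  have hXne := hL.ne
  have hdX : Differentiable ℂ X := diff_Lt hK.wt
  have hsX : Sym X := sym_Lt (fun u => hK.herm u)
  have hgrX : Gro X := gro_Lt hK hK.wt (fun u => le_rfl)
  have hfinX := Pool.Agent.N768.GN.a4 m _ hdX hXne hAX
  have hLB := Pool.Agent.N282.GN.t5 h1 _ hdX hsX hgrX hfinX hL
  have hHne : ∃ z, H z ≠ 0 := by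
    by_contra hcon
    push Not at hcon
    obtain ⟨z, hz⟩ := hXne
    apply hz
    have e : H = fun _ => 0 := funext hcon
    rw [← hode z, e]
    simp
  have hfinH := Pool.Agent.N768.GN.a4 m _ hHd hHne (hHA m hA)
  have hgrH : Gro H := gro_ode hHd hode hgrX
  have hXe : (fun z => deriv H z - a * H z) = X := funext hode
  have hSL : SL H := t4b h1 Pool.Agent.N400.GN.h3 H a hHd (hHs hs) hgrH hfinH (by rw [hXe]; exact hL)
    (by rw [hXe]; exact hLB)
  exact no_SL hK hM a hHd hode hSL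

end Pool.Agent.Helper41.GN
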